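import Pool.Agent.Run7.h148.E3.Act2

set_option autoImplicit false

open Metric Set MeasureTheory Filter Topology Complex

namespace Run7.h148.E3

variable {v : ℝ → ℂ → ℂ} {D : ℝ → ℂ → ℂ →L[ℝ] ℂ} {φ : ℝ → ℂ → ℂ} {A : ℝ → ℂ → ℂ →L[ℝ] ℂ}

lemma cz : Continuous (fun z : ℂ => (z.re, z.im)) :=
  Complex.continuous_re.prodMk Complex.continuous_im

lemma om_cont {L : ℝ → ℂ → ℂ →L[ℝ] ℂ} {t : ℝ} (h : Continuous (L t)) : Continuous (om L t) :=
  (Complex.continuous_im.comp (h.clm_apply continuous_const)).sub
    (Complex.continuous_re.comp (h.clm_apply continuous_const))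

lemma gg_per (h : Planar v D) {t : ℝ} (ht : 0 ≤ t) (z : ℂ) :
    gg v t (z + 2 * Real.pi) = gg v t z := by
  have him : (z + 2 * Real.pi : ℂ).im = z.im := by simp
  have hre : (z + 2 * Real.pi : ℂ).re = z.re + 2 * Real.pi := by simp
  unfold gg psi
  rw [him, h.perx t ht, hre]
  congr 2
  congr 1
  funext y
  have e : (⟨z.re + 2 * Real.pi, y⟩ : ℂ) = ⟨z.re, y⟩ + 2 * Real.pi := by
    apply Complex.ext <;> simp
  rw [e, h.perx t ht]

lemma gg_cont (h : Planar v D) {t : ℝ} (ht : 0 ≤ t) : Continuous (gg v t) :=
  continuous_iff_continuousAt.2 fun z => ((h.sf ht).hasFDerivAt_gs (mn v) z).continuousAt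

/-- the `L¹` lower bound for the deformation -/
theorem act (hKEY : St_KEY) : St_ACT := by
  intro v D φ A h hne hF
  obtain ⟨E, hE0, hE⟩ := hKEY v D h hne
  have hpi := Real.pi_pos
  -- bound of the initial vorticity
  have com0 : Continuous (om D 0) := om_cont (slice_cont h.cD le_rfl)
  obtain ⟨W, hW⟩ := (isCompact_closedBall (0:ℂ) (2 * Real.pi)).exists_bound_of_continuousOn
    com0.continuousOn
  have hW0 : 0 ≤ W := (norm_nonneg _).trans (hW 0 (by simp; positivity))
  refine ⟨E / ((W + 1) * (Real.pi * Real.pi)), by positivity, fun T hT => ?_⟩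
  -- abbreviations
  set k := kk v D φ A with hk
  have ck : Continuous (fun q : ℝ × ℂ => k q.1 q.2) := kk_cont h hF
  let GE : ℝ → ℂ → ℝ := fun t z => ∫ s in (0:ℝ)..z.im, k t ⟨z.re, s⟩
  have cGE : Continuous (fun q : ℝ × ℂ => GE q.1 q.2) := by
    have c1 : Continuous (Function.uncurry fun (q : ℝ × ℂ) (s : ℝ) => k q.1 ⟨q.2.re, s⟩) := by
      have c2 : Continuous (fun p : (ℝ × ℂ) × ℝ => (p.1.1, (⟨p.1.2.re, p.2⟩ : ℂ))) := by
        refine (continuous_fst.comp continuous_fst).prodMk ?_
        exact cmk.comp ((Complex.continuous_re.comp (continuous_snd.comp continuous_fst)).prodMk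
          continuous_snd)
      exact ck.comp c2
    exact intervalIntegral.continuous_parametric_intervalIntegral_of_continuous c1
      (Complex.continuous_im.comp continuous_snd)
  have hGE : ∀ t, 0 ≤ t → ∀ z, GE t z = gg v t (φ t z) := by
    intro t ht z
    have := g_eq h hF ht z.re z.im
    rw [show (⟨z.re, z.im⟩ : ℂ) = z from Complex.eta z] at this
    exact this.symm
  let H : ℝ → ℂ → ℝ := fun t z => om D 0 z * GE t z
  have cH : Continuous (fun q : ℝ × ℂ => H q.1 q.2) :=
    (com0.comp continuous_snd).mul cGE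
  -- lower bound of the spatial integrals
  have hlow : ∀ t, 0 ≤ t → E ≤ ∫ z in St, H t z := by
    intro t ht
    have h1 : ∀ z, H t z = (fun w => om D t w * gg v t w) (φ t z) := by
      intro z
      have h2 := h.vort (fun s => φ s z) (fun s hs => hF.der z s hs) t ht
      simp only [hF.init] at h2
      simp only [H, hGE t ht, h2]
    have h3 := hF.mp t ht (fun w => om D t w * gg v t w)
      ((om_cont (slice_cont h.cD ht)).mul (gg_cont h ht)) (by
        intro z
        rw [gg_per h ht]
        have := h.Dper ht _ (h.perx t ht) z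
        unfold om
        rw [this])
    have h4 : ∫ z in St, H t z = ∫ z in St, (fun w => om D t w * gg v t w) (φ t z) := by
      congr 1
      funext z
      exact h1 z
    rw [h4, h3]
    exact hE t ht
  -- Fubini
  have hint : Integrable (Function.uncurry H)
      ((volume.restrict (uIoc 0 T)).prod (volume.restrict St)) := by
    rw [Measure.prod_restrict, ← Measure.volume_eq_prod, ← IntegrableOn]
    exact (cH.continuousOn.integrableOn_compact
      (isCompact_uIcc.prod (isCompact_closedBall (0:ℂ) (2 * Real.pi)))).mono_set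
      (prod_mono uIoc_subset_uIcc St_subset)
  have hfub := MeasureTheory.intervalIntegral_integral_swap (a := 0) (b := T) (f := H)
    (μ := volume.restrict St) hint
  have hI : IntervalIntegrable (fun t => ∫ z in St, H t z) volume 0 T := by
    rw [intervalIntegrable_iff]
    exact hint.integral_prod_left
  have h1 : E * T ≤ ∫ z in St, ∫ t in (0:ℝ)..T, H t z := by
    rw [← hfub]
    have h2 : ∫ _t in (0:ℝ)..T, E = E * T := by
      rw [intervalIntegral.integral_const, smul_eq_mul]; ring
    rw [← h2]
    apply intervalIntegral.integral_mono_on hT intervalIntegrable_const hI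
    intro t ht
    exact hlow t ht.1
  -- the action
  let ρ : ℝ → ℝ := fun x => ∫ s in (0:ℝ)..Real.pi, |(A T ⟨x, s⟩ I).re|
  have cAI : Continuous (fun z : ℂ => (A T z I).re) :=
    Complex.continuous_re.comp ((slice_cont hF.cA hT).clm_apply continuous_const)
  have cφT : Continuous (φ T) := slice_cont hF.cφ hT
  have cρ : Continuous ρ := by
    apply intervalIntegral.continuous_parametric_intervalIntegral_of_continuous'
    exact (cAI.comp cmk).abs
  have ha : ∀ z ∈ St, |∫ t in (0:ℝ)..T, GE t z| ≤ Real.pi * ρ z.re := by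
    intro z hz
    have h2 : ∫ t in (0:ℝ)..T, GE t z =
        ∫ s in (0:ℝ)..z.im, -(φ T ⟨z.re, s⟩).im * (A T ⟨z.re, s⟩ I).re :=
      a_eq h hF hT z.re z.im
    have cs : Continuous (fun s : ℝ => (⟨z.re, s⟩ : ℂ)) := cmk.comp (continuous_const.prodMk continuous_id)
    have c3 : Continuous (fun s : ℝ => |-(φ T ⟨z.re, s⟩).im * (A T ⟨z.re, s⟩ I).re|) :=
      (((Complex.continuous_im.comp (cφT.comp cs)).neg.mul (cAI.comp cs))).abs
    have c4 : Continuous (fun s : ℝ => Real.pi * |(A T ⟨z.re, s⟩ I).re|) :=
      continuous_const.mul (cAI.comp cs).abs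
    rw [h2]
    calc |∫ s in (0:ℝ)..z.im, -(φ T ⟨z.re, s⟩).im * (A T ⟨z.re, s⟩ I).re|
        ≤ ∫ s in (0:ℝ)..z.im, |-(φ T ⟨z.re, s⟩).im * (A T ⟨z.re, s⟩ I).re| :=
          intervalIntegral.abs_integral_le_integral_abs hz.2.2.1
      _ ≤ ∫ s in (0:ℝ)..z.im, Real.pi * |(A T ⟨z.re, s⟩ I).re| := by
          apply intervalIntegral.integral_mono_on hz.2.2.1 (c3.intervalIntegrable _ _)
            (c4.intervalIntegrable _ _)
          intro s hs
          have hs2 := hF.strip T hT ⟨z.re, s⟩ hs.1 (hs.2.trans hz.2.2.2)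
          rw [abs_mul, abs_neg, abs_of_nonneg hs2.1]
          exact mul_le_mul_of_nonneg_right hs2.2 (abs_nonneg _)
      _ ≤ ∫ s in (0:ℝ)..Real.pi, Real.pi * |(A T ⟨z.re, s⟩ I).re| := by
          apply intervalIntegral.integral_mono_interval le_rfl hz.2.2.1 hz.2.2.2
          · exact Eventually.of_forall fun s => by positivity
          · exact c4.intervalIntegrable _ _
      _ = Real.pi * ρ z.re := by
          rw [intervalIntegral.integral_const_mul]
  have hup : ∫ z in St, ∫ t in (0:ℝ)..T, H t z ≤ (W + 1) * (Real.pi * Real.pi) *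
      ∫ z in St, |(A T z I).re| := by
    have h3 : ∀ z, ∫ t in (0:ℝ)..T, H t z = om D 0 z * ∫ t in (0:ℝ)..T, GE t z := by
      intro z
      exact intervalIntegral.integral_const_mul _ _
    have h4 : ∫ z in St, ∫ t in (0:ℝ)..T, H t z ≤ ∫ z in St, (W + 1) * (Real.pi * ρ z.re) := by
      apply setIntegral_mono_on
      · exact hint.swap.integral_prod_left.mono_measure le_rfl |> fun hh => by
          have : IntegrableOn (fun z => ∫ t in uIoc 0 T, H t z) St := hh
          refine this.congr_fun (fun z _ => ?_) measurableSet_St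
          show ∫ t in uIoc 0 T, H t z = _
          rw [intervalIntegral.integral_of_le hT, uIoc_of_le hT]
      · exact St_int (continuous_const.mul (continuous_const.mul (cρ.comp Complex.continuous_re)))
      · exact measurableSet_St
      · intro z hz
        rw [h3]
        refine (le_abs_self _).trans ?_
        rw [abs_mul]
        have h5 := hW z (St_subset hz)
        rw [Real.norm_eq_abs] at h5
        exact mul_le_mul (h5.trans (by linarith)) (ha z hz) (abs_nonneg _) (by linarith)
    refine h4.trans (le_of_eq ?_)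
    have c5 : Continuous (fun z : ℂ => (W + 1) * (Real.pi * ρ z.re)) :=
      continuous_const.mul (continuous_const.mul (cρ.comp Complex.continuous_re))
    rw [St_iter c5, St_iter cAI.abs]
    simp only [intervalIntegral.integral_const, smul_eq_mul, sub_zero]
    rw [← intervalIntegral.integral_const_mul]
    congr 1
    funext x
    simp only [ρ]
    ring
  have h6 : E * T ≤ (W + 1) * (Real.pi * Real.pi) * ∫ z in St, |(A T z I).re| := h1.trans hup
  have h7 : 0 < (W + 1) * (Real.pi * Real.pi) := by positivity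
  rw [div_mul_eq_mul_div, div_le_iff₀ h7]
  linarith

end Run7.h148.E3
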