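import Pool.Agent.Run7.h148.E3.Flow

set_option autoImplicit false

open Metric Set MeasureTheory Filter Topology Complex

namespace Run7.h148.E3

/-- a time independent, divergence free `C¹` field, horizontal on the real axis -/
structure SF (w : ℂ → ℂ) (L : ℂ → ℂ →L[ℝ] ℂ) : Prop where
  cL : Continuous L
  hL : ∀ z, HasFDerivAt w (L z) z
  tr : ∀ z, (L z 1).re + (L z I).im = 0
  bot : ∀ z : ℂ, z.im = 0 → (w z).im = 0

variable {w : ℂ → ℂ} {L : ℂ → ℂ →L[ℝ] ℂ}

lemma SF.cw (h : SF w L) : Continuous w :=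
  continuous_iff_continuousAt.2 fun z => (h.hL z).continuousAt

lemma cmk : Continuous (fun p : ℝ × ℝ => (⟨p.1, p.2⟩ : ℂ)) := by
  have e : (fun p : ℝ × ℝ => (⟨p.1, p.2⟩ : ℂ)) = fun p => (p.1 : ℂ) + p.2 * I := by
    funext p; exact Complex.mk_eq_add_mul_I _ _
  rw [e]; fun_prop

lemma hasDerivAt_mk_x (x y : ℝ) : HasDerivAt (fun x : ℝ => (⟨x, y⟩ : ℂ)) 1 x := by
  have e : (fun x : ℝ => (⟨x, y⟩ : ℂ)) = fun x : ℝ => (x : ℂ) + y * I := by
    funext p; exact Complex.mk_eq_add_mul_I _ _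
  rw [e]
  exact ((hasDerivAt_id x).ofReal_comp).add_const _

lemma hasDerivAt_mk_y (x y : ℝ) : HasDerivAt (fun y : ℝ => (⟨x, y⟩ : ℂ)) I y := by
  have e : (fun y : ℝ => (⟨x, y⟩ : ℂ)) = fun y : ℝ => (x : ℂ) + y * I := by
    funext p; exact Complex.mk_eq_add_mul_I _ _
  rw [e]
  have := (((hasDerivAt_id y).ofReal_comp).mul_const I).const_add (x : ℂ)
  simpa using this

lemma SF.dx (h : SF w L) (x y : ℝ) :
    HasDerivAt (fun x : ℝ => w ⟨x, y⟩) (L ⟨x, y⟩ 1) x :=
  (h.hL ⟨x, y⟩).comp_hasDerivAt x (hasDerivAt_mk_x x y)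

lemma SF.dy (h : SF w L) (x y : ℝ) :
    HasDerivAt (fun y : ℝ => w ⟨x, y⟩) (L ⟨x, y⟩ I) y :=
  (h.hL ⟨x, y⟩).comp_hasDerivAt y (hasDerivAt_mk_y x y)

lemma re_der {f : ℝ → ℂ} {f' : ℂ} {t : ℝ} (h : HasDerivAt f f' t) :
    HasDerivAt (fun t => (f t).re) f'.re t :=
  (Complex.reCLM.hasFDerivAt.comp_hasDerivAt t h)

lemma im_der {f : ℝ → ℂ} {f' : ℂ} {t : ℝ} (h : HasDerivAt f f' t) :
    HasDerivAt (fun t => (f t).im) f'.im t :=
  (Complex.imCLM.hasFDerivAt.comp_hasDerivAt t h)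

/-- `∫ v_2(ξ,y) dξ = - ∫_0^y (v_1(x,s) - v_1(x_0,s)) ds` -/
lemma SF.flux (h : SF w L) (x₀ x y : ℝ) :
    ∫ ξ in x₀..x, (w ⟨ξ, y⟩).im = - ∫ s in (0:ℝ)..y, ((w ⟨x, s⟩).re - (w ⟨x₀, s⟩).re) := by
  have cL1 : Continuous (fun p : ℝ × ℝ => (L ⟨p.1, p.2⟩ 1).re) :=
    Complex.continuous_re.comp ((h.cL.comp cmk).clm_apply continuous_const)
  have cL2 : Continuous (fun p : ℝ × ℝ => (L ⟨p.1, p.2⟩ I).im) :=
    Complex.continuous_im.comp ((h.cL.comp cmk).clm_apply continuous_const)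
  have h1 : ∀ ξ, (w ⟨ξ, y⟩).im = ∫ s in (0:ℝ)..y, (L ⟨ξ, s⟩ I).im := by
    intro ξ
    rw [intervalIntegral.integral_eq_sub_of_hasDerivAt (fun s _ => im_der (h.dy ξ s))]
    · rw [h.bot ⟨ξ, 0⟩ rfl, sub_zero]
    · exact (cL2.comp (continuous_const.prodMk continuous_id)).intervalIntegrable _ _
  have h2 : ∀ s, (w ⟨x, s⟩).re - (w ⟨x₀, s⟩).re = ∫ ξ in x₀..x, (L ⟨ξ, s⟩ 1).re := by
    intro s
    rw [intervalIntegral.integral_eq_sub_of_hasDerivAt (fun ξ _ => re_der (h.dx ξ s))]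
    exact (cL1.comp (continuous_id.prodMk continuous_const)).intervalIntegrable _ _
  simp_rw [h1, h2]
  rw [← intervalIntegral.integral_neg]
  rw [MeasureTheory.intervalIntegral_intervalIntegral_swap]
  · congr 1
    funext s
    rw [← intervalIntegral.integral_neg]
    congr 1
    funext ξ
    linarith [h.tr ⟨ξ, s⟩]
  · exact (cL2.continuousOn.integrableOn_compact
      (isCompact_uIcc.prod isCompact_uIcc)).mono_set (prod_mono uIoc_subset_uIcc uIoc_subset_uIcc)

lemma swap2 {F : ℝ → ℝ → ℝ} (hF : Continuous (fun p : ℝ × ℝ => F p.1 p.2)) (a b c d : ℝ) :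
    ∫ x in a..b, ∫ y in c..d, F x y = ∫ y in c..d, ∫ x in a..b, F x y :=
  MeasureTheory.intervalIntegral_intervalIntegral_swap
    ((hF.continuousOn.integrableOn_compact
      (isCompact_uIcc.prod isCompact_uIcc)).mono_set (prod_mono uIoc_subset_uIcc uIoc_subset_uIcc))

/-- stream function -/
noncomputable def ps (w : ℂ → ℂ) (m : ℝ) (z : ℂ) : ℝ :=
  - ∫ y in (0:ℝ)..z.im, ((w ⟨z.re, y⟩).re - m)

lemma SF.hasFDerivAt_ps (h : SF w L) (m : ℝ) (z : ℂ) :
    HasFDerivAt (ps w m) ((w z).im • Complex.reCLM - ((w z).re - m) • Complex.imCLM) z := by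
  let f : ℝ → ℝ → ℝ := fun x y => - ∫ s in (0:ℝ)..y, ((w ⟨x, s⟩).re - m)
  let f₁ : ℝ → ℝ → ℝ →L[ℝ] ℝ := fun x y => (w ⟨x, y⟩).im • ContinuousLinearMap.id ℝ ℝ
  let f₂ : ℝ → ℝ → ℝ →L[ℝ] ℝ := fun x y => (-((w ⟨x, y⟩).re - m)) • ContinuousLinearMap.id ℝ ℝ
  have cwmk : Continuous (fun p : ℝ × ℝ => w ⟨p.1, p.2⟩) := h.cw.comp cmk
  have cre : Continuous (fun p : ℝ × ℝ => (w ⟨p.1, p.2⟩).re) := Complex.continuous_re.comp cwmk
  have cim : Continuous (fun p : ℝ × ℝ => (w ⟨p.1, p.2⟩).im) := Complex.continuous_im.comp cwmk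
  have crx : ∀ x, Continuous (fun s : ℝ => (w ⟨x, s⟩).re) := fun x =>
    cre.comp (continuous_const.prodMk continuous_id)
  have ciy : ∀ y, Continuous (fun ξ : ℝ => (w ⟨ξ, y⟩).im) := fun y =>
    cim.comp (continuous_id.prodMk continuous_const)
  have d1 : ∀ x y, HasDerivAt (fun x => f x y) ((w ⟨x, y⟩).im) x := by
    intro x y
    have h1 : ∀ x, f x y = f 0 y + ∫ ξ in (0:ℝ)..x, (w ⟨ξ, y⟩).im := by
      intro x
      rw [h.flux 0 x y]
      simp only [f]
      rw [intervalIntegral.integral_sub, intervalIntegral.integral_sub,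
        intervalIntegral.integral_sub]
      · ring
      all_goals first | exact (crx _).intervalIntegrable _ _ | exact intervalIntegrable_const
    rw [show (fun x => f x y) = fun x => f 0 y + ∫ ξ in (0:ℝ)..x, (w ⟨ξ, y⟩).im from funext h1]
    apply HasDerivAt.const_add
    exact intervalIntegral.integral_hasDerivAt_right ((ciy y).intervalIntegrable _ _)
      ((ciy y).stronglyMeasurableAtFilter _ _) (ciy y).continuousAt
  have d2 : ∀ x y, HasDerivAt (fun y => f x y) (-((w ⟨x, y⟩).re - m)) y := by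
    intro x y
    apply HasDerivAt.neg
    have c : Continuous (fun s : ℝ => (w ⟨x, s⟩).re - m) := (crx x).sub continuous_const
    exact intervalIntegral.integral_hasDerivAt_right (c.intervalIntegrable _ _)
      (c.stronglyMeasurableAtFilter _ _) c.continuousAt
  have key := hasStrictFDerivAt_uncurry_coprod (𝕜 := ℝ) (u := (z.re, z.im)) (f := f) (f₁ := f₁)
    (f₂ := f₂)
    (Filter.Eventually.of_forall fun v => by
      refine (d1 v.1 v.2).hasFDerivAt.congr_fderiv (ContinuousLinearMap.ext fun u => ?_)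
      simp [f₁, Function.HasUncurry.uncurry, mul_comm])
    (Filter.Eventually.of_forall fun v => by
      refine (d2 v.1 v.2).hasFDerivAt.congr_fderiv (ContinuousLinearMap.ext fun u => ?_)
      simp [f₂, Function.HasUncurry.uncurry, mul_comm])
    ((cim.smul continuous_const).continuousAt)
    (((cre.sub continuous_const).neg.smul continuous_const).continuousAt)
  have h2 : HasFDerivAt (fun z : ℂ => (z.re, z.im)) (Complex.reCLM.prod Complex.imCLM) z :=
    Complex.reCLM.hasFDerivAt.prodMk Complex.imCLM.hasFDerivAt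
  have h3 := key.hasFDerivAt.comp z h2
  refine h3.congr_fderiv (ContinuousLinearMap.ext fun u => ?_)
  simp only [f₁, f₂, Function.HasUncurry.uncurry, id, ContinuousLinearMap.add_apply,
    ContinuousLinearMap.sub_apply, ContinuousLinearMap.coprod_apply, ContinuousLinearMap.prod_apply,
    ContinuousLinearMap.smul_apply, ContinuousLinearMap.neg_apply, ContinuousLinearMap.comp_apply,
    Complex.reCLM_apply, Complex.imCLM_apply, smul_eq_mul, ContinuousLinearMap.id_apply]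
  ring

/-- density of the action -/
noncomputable def gs (w : ℂ → ℂ) (m : ℝ) (z : ℂ) : ℝ := - z.im * ((w z).re - m) - ps w m z

lemma SF.hasFDerivAt_gs (h : SF w L) (m : ℝ) (z : ℂ) :
    HasFDerivAt (gs w m) ((-z.im) • (Complex.reCLM.comp (L z)) - (w z).im • Complex.reCLM) z := by
  have h1 : HasFDerivAt (fun z => (w z).re) (Complex.reCLM.comp (L z)) z :=
    Complex.reCLM.hasFDerivAt.comp z (h.hL z)
  have h2 : HasFDerivAt (fun z : ℂ => -z.im) (-Complex.imCLM) z := Complex.imCLM.hasFDerivAt.neg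
  have h3 := (h2.mul (h1.sub_const m)).sub (h.hasFDerivAt_ps m z)
  refine h3.congr_fderiv (ContinuousLinearMap.ext fun u => ?_)
  simp only [ContinuousLinearMap.add_apply, ContinuousLinearMap.sub_apply,
    ContinuousLinearMap.smul_apply, ContinuousLinearMap.neg_apply, ContinuousLinearMap.comp_apply,
    Complex.reCLM_apply, Complex.imCLM_apply, smul_eq_mul]
  ring

lemma SF.gs_curve (h : SF w L) (m : ℝ) {γ : ℝ → ℂ} {γ' : ℂ} {s : ℝ} (hγ : HasDerivAt γ γ' s) :
    HasDerivAt (fun s => gs w m (γ s)) (-(γ s).im * (L (γ s) γ').re - (w (γ s)).im * γ'.re) s := by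
  have h1 := (h.hasFDerivAt_gs m (γ s)).comp_hasDerivAt s hγ
  have e : ((-(γ s).im) • (Complex.reCLM.comp (L (γ s))) - (w (γ s)).im • Complex.reCLM) γ' =
      -(γ s).im * (L (γ s) γ').re - (w (γ s)).im * γ'.re := by simp
  rw [e] at h1
  exact h1

lemma gs_bot (m : ℝ) {z : ℂ} (hz : z.im = 0) : gs w m z = 0 := by
  simp [gs, ps, hz]

end Run7.h148.E3
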