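import Pool.Agent.Run7.h148.E3.Act1

set_option autoImplicit false

open Metric Set MeasureTheory Filter Topology Complex

namespace Run7.h148.E3

variable {v : ℝ → ℂ → ℂ} {D : ℝ → ℂ → ℂ →L[ℝ] ℂ} {φ : ℝ → ℂ → ℂ} {A : ℝ → ℂ → ℂ →L[ℝ] ℂ}

/-- iterated integral over the half cell -/
lemma St_iter {F : ℂ → ℝ} (hF : Continuous F) :
    ∫ z in St, F z = ∫ x in (-Real.pi)..Real.pi, ∫ y in (0:ℝ)..Real.pi, F ⟨x, y⟩ := by
  have hpi := Real.pi_pos
  have h1 : MeasurePreserving Complex.measurableEquivRealProd.symm volume volume :=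
    Complex.volume_preserving_equiv_real_prod.symm
  have h2 : Complex.measurableEquivRealProd.symm ⁻¹' St = Ico (-Real.pi) Real.pi ×ˢ Icc 0 Real.pi := by
    ext p
    simp only [mem_preimage, Complex.measurableEquivRealProd_symm_apply, St, mem_prod, mem_Ico,
      mem_Icc]
    constructor
    · rintro ⟨a, b, c, d⟩; exact ⟨⟨a, b⟩, c, d⟩
    · rintro ⟨⟨a, b⟩, c, d⟩; exact ⟨a, b, c, d⟩
  have hint : IntegrableOn (fun p : ℝ × ℝ => F ⟨p.1, p.2⟩)
      (Ico (-Real.pi) Real.pi ×ˢ Icc 0 Real.pi) (volume.prod volume) := by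
    rw [← Measure.volume_eq_prod]
    exact ((hF.comp cmk).continuousOn.integrableOn_compact
      (isCompact_Icc.prod isCompact_Icc)).mono_set (prod_mono Ico_subset_Icc_self subset_rfl)
  rw [← h1.setIntegral_preimage_emb Complex.measurableEquivRealProd.symm.measurableEmbedding,
    h2]
  have h3 : ∀ p : ℝ × ℝ, F (Complex.measurableEquivRealProd.symm p) = F ⟨p.1, p.2⟩ := by
    intro p; rfl
  simp_rw [h3]
  rw [Measure.volume_eq_prod, setIntegral_prod _ hint, intervalIntegral.integral_of_le (by linarith),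
    integral_Ico_eq_integral_Ioo, integral_Ioc_eq_integral_Ioo]
  congr 1
  funext x
  rw [intervalIntegral.integral_of_le hpi.le, integral_Icc_eq_integral_Ioc]

lemma St_fin : volume St < ⊤ := by
  have hb : Bornology.IsBounded St := by
    rw [Metric.isBounded_iff_subset_closedBall 0]
    refine ⟨2 * Real.pi, fun z hz => ?_⟩
    rw [mem_closedBall_zero_iff]
    refine (Complex.norm_le_abs_re_add_abs_im z).trans ?_
    obtain ⟨h1, h2, h3, h4⟩ := hz
    have h5 : |z.re| ≤ Real.pi := abs_le.2 ⟨h1, h2.le⟩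
    have h6 : |z.im| ≤ Real.pi := abs_le.2 ⟨by linarith, h4⟩
    linarith
  exact hb.measure_lt_top

lemma St_subset : St ⊆ closedBall (0:ℂ) (2 * Real.pi) := by
  intro z hz
  rw [mem_closedBall_zero_iff]
  refine (Complex.norm_le_abs_re_add_abs_im z).trans ?_
  obtain ⟨h1, h2, h3, h4⟩ := hz
  have h5 : |z.re| ≤ Real.pi := abs_le.2 ⟨h1, h2.le⟩
  have h6 : |z.im| ≤ Real.pi := abs_le.2 ⟨by linarith, h4⟩
  linarith

lemma St_int {F : ℂ → ℝ} (hF : Continuous F) : IntegrableOn F St :=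
  (hF.continuousOn.integrableOn_compact (isCompact_closedBall _ _)).mono_set St_subset

lemma ext_cont {X E : Type*} [TopologicalSpace X] [TopologicalSpace E] {F : ℝ → X → E}
    (h : ContinuousOn (fun q : ℝ × X => F q.1 q.2) (Ici 0 ×ˢ univ)) :
    Continuous (fun q : ℝ × X => F (max q.1 0) q.2) := by
  have hc : Continuous (fun p : ℝ × X => (max p.1 0, p.2)) :=
    (continuous_fst.max continuous_const).prodMk continuous_snd
  exact h.comp_continuous hc (fun p => ⟨(le_max_right p.1 0 : (0:ℝ) ≤ max p.1 0), trivial⟩)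

lemma slice_cont {X E : Type*} [TopologicalSpace X] [TopologicalSpace E] {F : ℝ → X → E}
    (h : ContinuousOn (fun q : ℝ × X => F q.1 q.2) (Ici 0 ×ˢ univ)) {t : ℝ} (ht : 0 ≤ t) :
    Continuous (F t) := by
  have := (ext_cont h).comp (continuous_const.prodMk continuous_id : Continuous fun x : X => (t, x))
  simpa [Function.comp_def, max_eq_left ht] using this

lemma Planar.sf (h : Planar v D) {t : ℝ} (ht : 0 ≤ t) : SF (v t) (D t) :=
  ⟨slice_cont h.cD ht, h.hD t ht, h.tr t ht, fun z hz => h.im_bot ht hz⟩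

/-- time derivative of `- Im φ Re (A I)` -/
noncomputable def kk (v : ℝ → ℂ → ℂ) (D : ℝ → ℂ → ℂ →L[ℝ] ℂ) (φ : ℝ → ℂ → ℂ)
    (A : ℝ → ℂ → ℂ →L[ℝ] ℂ) (t : ℝ) (z : ℂ) : ℝ :=
  -(φ (max t 0) z).im * (D (max t 0) (φ (max t 0) z) (A (max t 0) z I)).re
    - (v (max t 0) (φ (max t 0) z)).im * (A (max t 0) z I).re

lemma kk_cont (h : Planar v D) (hF : PFlow v D φ A) :
    Continuous (fun q : ℝ × ℂ => kk v D φ A q.1 q.2) := by
  have cφ := ext_cont hF.cφ
  have cA : Continuous (fun q : ℝ × ℂ => A (max q.1 0) q.2 I) :=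
    (ext_cont hF.cA).clm_apply continuous_const
  have cq : Continuous (fun q : ℝ × ℂ => (q.1, φ (max q.1 0) q.2)) := continuous_fst.prodMk cφ
  have cD : Continuous (fun q : ℝ × ℂ => D (max q.1 0) (φ (max q.1 0) q.2) (A (max q.1 0) q.2 I)) :=
    ((ext_cont h.cD).comp cq).clm_apply cA
  have cv : Continuous (fun q : ℝ × ℂ => v (max q.1 0) (φ (max q.1 0) q.2)) :=
    (ext_cont h.cv).comp cq
  exact ((Complex.continuous_im.comp cφ).neg.mul (Complex.continuous_re.comp cD)).sub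
    ((Complex.continuous_im.comp cv).mul (Complex.continuous_re.comp cA))

lemma g_eq (h : Planar v D) (hF : PFlow v D φ A) {t : ℝ} (ht : 0 ≤ t) (x y : ℝ) :
    gg v t (φ t ⟨x, y⟩) = ∫ s in (0:ℝ)..y, kk v D φ A t ⟨x, s⟩ := by
  have h1 : ∀ s : ℝ, HasDerivAt (fun s : ℝ => φ t ⟨x, s⟩) (A t ⟨x, s⟩ I) s := fun s =>
    (hF.hA t ht ⟨x, s⟩).comp_hasDerivAt s (hasDerivAt_mk_y x s)
  have h2 : ∀ s : ℝ, HasDerivAt (fun s : ℝ => gg v t (φ t ⟨x, s⟩)) (kk v D φ A t ⟨x, s⟩) s := by
    intro s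
    have := (h.sf ht).gs_curve (mn v) (h1 s)
    unfold kk
    rw [max_eq_left ht]
    exact this
  rw [intervalIntegral.integral_eq_sub_of_hasDerivAt (fun s _ => h2 s)]
  · have h3 : gg v t (φ t ⟨x, 0⟩) = 0 := gs_bot (mn v) (hF.bot t ht ⟨x, 0⟩ rfl)
    rw [h3, sub_zero]
  · have : Continuous fun s : ℝ => kk v D φ A t ⟨x, s⟩ :=
      (kk_cont h hF).comp (continuous_const.prodMk
        (cmk.comp (continuous_const.prodMk continuous_id)))
    exact this.intervalIntegrable _ _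

lemma m_eq (h : Planar v D) (hF : PFlow v D φ A) {T : ℝ} (hT : 0 ≤ T) (z : ℂ) :
    -(φ T z).im * (A T z I).re = ∫ t in (0:ℝ)..T, kk v D φ A t z := by
  have h0 : -(φ 0 z).im * (A 0 z I).re = 0 := by
    rw [hF.A0]; simp
  have hd : ∀ t, 0 ≤ t → HasDerivWithinAt (fun t => -(φ t z).im * (A t z I).re)
      (kk v D φ A t z) (Ici 0) t := by
    intro t ht
    have h1 := hF.der z t ht
    have h2 := hF.dA z I t ht
    have h1i : HasDerivWithinAt (fun t => (φ t z).im) (v t (φ t z)).im (Ici 0) t :=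
      Complex.imCLM.hasFDerivAt.comp_hasDerivWithinAt t h1
    have h2r : HasDerivWithinAt (fun t => (A t z I).re) (D t (φ t z) (A t z I)).re (Ici 0) t :=
      Complex.reCLM.hasFDerivAt.comp_hasDerivWithinAt t h2
    have h3 := h1i.neg.mul h2r
    unfold kk
    rw [max_eq_left ht]
    refine h3.congr_deriv ?_
    simp only [Pi.neg_apply]
    ring
  have ck : Continuous fun t : ℝ => kk v D φ A t z :=
    (kk_cont h hF).comp (continuous_id.prodMk continuous_const)
  rw [intervalIntegral.integral_eq_sub_of_hasDeriv_right_of_le hT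
    (f := fun t => -(φ t z).im * (A t z I).re)]
  · simp only [h0, sub_zero]
  · intro t ht
    exact ((hd t ht.1).continuousWithinAt).mono (fun s hs => hs.1)
  · intro t ht
    exact (hd t ht.1.le).mono (fun s hs => le_trans ht.1.le (le_of_lt hs))
  · exact ck.intervalIntegrable _ _

/-- the action -/
lemma a_eq (h : Planar v D) (hF : PFlow v D φ A) {T : ℝ} (hT : 0 ≤ T) (x y : ℝ) :
    ∫ t in (0:ℝ)..T, ∫ s in (0:ℝ)..y, kk v D φ A t ⟨x, s⟩ =
      ∫ s in (0:ℝ)..y, -(φ T ⟨x, s⟩).im * (A T ⟨x, s⟩ I).re := by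
  rw [swap2]
  · congr 1
    funext s
    rw [m_eq h hF hT]
  · exact (kk_cont h hF).comp (continuous_fst.prodMk
      (cmk.comp (continuous_const.prodMk continuous_snd)))

end Run7.h148.E3
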