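import Pool.Agent.Run7.h148.E3.Iface
import Pool.Agent.H708R2.EulerTypeI.Traj

set_option autoImplicit false

/-!
Reduction of a solution with initial velocity independent of `x_3` to the planar solution
(helper250, pieces RED and SAME).
-/

open MeasureTheory Set Complex
open scoped Topology

namespace Run7.h148.E3

open Pool.Agent.H708R2.EulerSign Pool.Agent.H708R2.EulerTypeI

namespace Red

variable {T : ℝ} {u : ℝ → V → V} {p : ℝ → V → ℝ}

/-! ### linear maps -/

/-- horizontal projection -/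
noncomputable def Q : V →L[ℝ] V :=
  ContinuousLinearMap.pi ![ContinuousLinearMap.proj 0, ContinuousLinearMap.proj 1, 0]

lemma Q_0 (y : V) : Q y 0 = y 0 := rfl
lemma Q_1 (y : V) : Q y 1 = y 1 := rfl
lemma Q_2 (y : V) : Q y 2 = 0 := rfl

lemma Q_eq (y : V) : Q y = y - y 2 • (Pi.single 2 (1 : ℝ) : V) := by
  ext i
  fin_cases i
  · simp [Q_0]
  · simp [Q_1]
  · simp [Q_2]

/-- reflection -/
noncomputable def M : V →L[ℝ] V :=
  ContinuousLinearMap.pi ![ContinuousLinearMap.proj 0, -ContinuousLinearMap.proj 1,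
    ContinuousLinearMap.proj 2]

/-- the signs of the reflection -/
def ep : Fin 3 → ℝ := ![1, -1, 1]

lemma M_apply (y : V) (i : Fin 3) : M y i = ep i * y i := by
  fin_cases i <;> simp [M, ep]

lemma M_mir (y : V) : M y = mir y := by
  ext i
  fin_cases i <;> simp [M, mir]

lemma ep_sq (i : Fin 3) : ep i * ep i = 1 := by
  fin_cases i <;> simp [ep]

lemma M_M (y : V) : M (M y) = y := by
  ext i
  rw [M_apply, M_apply, ← mul_assoc, ep_sq, one_mul]

lemma M_single (i : Fin 3) (c : ℝ) : M (Pi.single i c) = ep i • (Pi.single i c : V) := by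
  ext j
  rw [M_apply, Pi.smul_apply, smul_eq_mul]
  by_cases h : j = i
  · subst h; rfl
  · simp [h]

/-- the planar part of a vector -/
noncomputable def L : V →L[ℝ] ℂ :=
  (Complex.equivRealProdCLM.symm : ℝ × ℝ →L[ℝ] ℂ) ∘L
    ((ContinuousLinearMap.proj (R := ℝ) (φ := fun _ : Fin 3 => ℝ) 0).prod
      (ContinuousLinearMap.proj (R := ℝ) (φ := fun _ : Fin 3 => ℝ) 1))

lemma L_re (y : V) : (L y).re = y 0 := by simp [L]
lemma L_im (y : V) : (L y).im = y 1 := by simp [L]

lemma L_apply (y : V) : L y = ⟨y 0, y 1⟩ := Complex.ext (L_re y) (L_im y)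

/-- the embedding of the plane as a linear map -/
noncomputable def E : ℂ →L[ℝ] V :=
  ContinuousLinearMap.pi ![Complex.reCLM, Complex.imCLM, 0]

lemma E_apply (z : ℂ) : E z = emb z := by
  ext i
  fin_cases i <;> simp [E, emb]

lemma E_L (y : V) : E (L y) = Q y := by
  ext i
  fin_cases i
  · simp [E, L_re, Q_0]
  · simp [E, L_im, Q_1]
  · simp [E, Q_2]

lemma pv_eq (t : ℝ) (z : ℂ) : pv u t z = L (u t (E z)) := by
  rw [E_apply, L_apply]; rfl

/-! ### independence of the third coordinate -/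

lemma zind_fderiv {F : Type*} [NormedAddCommGroup F] [NormedSpace ℝ F] {f : V → F} (h : Zind f)
    {x : V} (hf : DifferentiableAt ℝ f x) : fderiv ℝ f x (Pi.single 2 1) = 0 := by
  have h1 : HasDerivAt (fun s : ℝ => x + s • (Pi.single 2 (1 : ℝ) : V))
      (Pi.single 2 (1 : ℝ) : V) 0 := by
    simpa using ((hasDerivAt_id (0 : ℝ)).smul_const (Pi.single 2 (1 : ℝ) : V)).const_add x
  have hf' : HasFDerivAt f (fderiv ℝ f x) (x + (0 : ℝ) • (Pi.single 2 (1 : ℝ) : V)) := by
    simpa using hf.hasFDerivAt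
  have h2 := hf'.comp_hasDerivAt (0 : ℝ) h1
  have h3 : (f ∘ fun s : ℝ => x + s • (Pi.single 2 (1 : ℝ) : V)) = fun _ => f x := by
    funext s
    have : (s • (Pi.single 2 (1 : ℝ) : V)) = Pi.single 2 s := by
      ext j; by_cases hj : j = 2
      · subst hj; simp
      · simp [hj]
    simp only [Function.comp_apply, this]
    exact h x s
  rw [h3] at h2
  exact (h2.unique (hasDerivAt_const (0 : ℝ) (f x)))

lemma zind_fderiv_Q {F : Type*} [NormedAddCommGroup F] [NormedSpace ℝ F] {f : V → F}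
    (h : Zind f) {x : V} (hf : DifferentiableAt ℝ f x) (y : V) :
    fderiv ℝ f x (Q y) = fderiv ℝ f x y := by
  rw [Q_eq, map_sub, map_smul, zind_fderiv h hf, smul_zero, sub_zero]

/-! ### the momentum equation -/

lemma mom1 (h : IsClassicalSolution (Ico 0 T) u p) {t : ℝ} (ht : t ∈ Ico 0 T) (x : V)
    (i : Fin 3) :
    derivWithin (fun s => u s x i) (Ico 0 T) t + fderiv ℝ (u t) x (u t x) i
      = -fderiv ℝ (p t) x (Pi.single i 1) := by
  rw [← sum_mul_clm]; exact h.momentum t ht x i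

lemma diff_u (h : IsClassicalSolution (Ico 0 T) u p) {t : ℝ} (ht : t ∈ Ico 0 T) (x : V) :
    DifferentiableAt ℝ (u t) x :=
  (contDiff_slice h.contDiffOn_u ht).differentiable one_ne_zero x

lemma diff_p (h : IsClassicalSolution (Ico 0 T) u p) {t : ℝ} (ht : t ∈ Ico 0 T) (x : V) :
    DifferentiableAt ℝ (p t) x :=
  (contDiff_slice h.contDiffOn_p ht).differentiable one_ne_zero x

/-! ### translates -/

lemma translate (h : IsClassicalSolution (Ico 0 T) u p) (b : V) :
    IsClassicalSolution (Ico 0 T) (fun t x => u t (x + b)) (fun t x => p t (x + b)) where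
  contDiffOn_u := h.contDiffOn_u.comp (t := Ico 0 T ×ˢ univ)
    (f := fun z : ℝ × V => (z.1, z.2 + b)) (by fun_prop) (fun z hz => ⟨hz.1, mem_univ _⟩)
  contDiffOn_p := h.contDiffOn_p.comp (t := Ico 0 T ×ˢ univ)
    (f := fun z : ℝ × V => (z.1, z.2 + b)) (by fun_prop) (fun z hz => ⟨hz.1, mem_univ _⟩)
  periodic_u t ht i x := by
    simp only; rw [add_right_comm]; exact h.periodic_u t ht i (x + b)
  periodic_p t ht i x := by
    simp only; rw [add_right_comm]; exact h.periodic_p t ht i (x + b)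
  div_free t ht x := by
    have := h.div_free t ht (x + b)
    rw [divergence_eq_sum] at this ⊢
    simpa only [fderiv_comp_add_right] using this
  momentum t ht x i := by
    simp only [fderiv_comp_add_right]
    exact h.momentum t ht (x + b) i

lemma zind_u (hU : St_UNIQ) (h : ∀ T, IsC2Solution T u p) (h0 : Zind (u 0)) {t : ℝ}
    (ht : 0 ≤ t) : Zind (u t) := by
  intro x c
  have := hU (t + 1) u (fun t x => u t (x + Pi.single 2 c)) p
    (fun t x => p t (x + Pi.single 2 c)) (h (t + 1)).sol (translate (h _).sol _)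
    (by funext x; exact h0 x c) t ⟨ht, by linarith⟩
  exact congrFun this x

lemma zind_p (hU : St_UNIQ) (h : ∀ T, IsC2Solution T u p) (h0 : Zind (u 0)) {t : ℝ}
    (ht : 0 ≤ t) : Zind (p t) := by
  have hI : t ∈ Ico 0 (t + 1) := ⟨ht, by linarith⟩
  have hs := (h (t + 1)).sol
  -- the third derivative of the pressure does not depend on `x_3`
  have key : ∀ (x : V) (c : ℝ), fderiv ℝ (p t) (x + Pi.single 2 c) (Pi.single 2 1)
      = fderiv ℝ (p t) x (Pi.single 2 1) := by
    intro x c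
    have e1 := mom1 hs hI (x + Pi.single 2 c) 2
    have e2 := mom1 hs hI x 2
    have e3 : derivWithin (fun s => u s (x + Pi.single 2 c) 2) (Ico 0 (t + 1)) t
        = derivWithin (fun s => u s x 2) (Ico 0 (t + 1)) t := by
      refine derivWithin_congr (fun s hs' => ?_) ?_
      · rw [zind_u hU h h0 hs'.1 x c]
      · rw [zind_u hU h h0 ht x c]
    have e4 : fderiv ℝ (u t) (x + Pi.single 2 c) = fderiv ℝ (u t) x := by
      rw [← fderiv_comp_add_right]
      congr 1
      funext y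
      exact zind_u hU h h0 ht y c
    rw [e3, e4, zind_u hU h h0 ht x c, e2] at e1
    linarith
  intro x c
  have hsm : ∀ s : ℝ, (s • (Pi.single 2 (1 : ℝ) : V)) = Pi.single 2 s := by
    intro s; ext j; by_cases hj : j = 2
    · subst hj; simp
    · simp [hj]
  set a := fderiv ℝ (p t) x (Pi.single 2 1) with ha
  have hg : ∀ s : ℝ, HasDerivAt (fun s : ℝ => p t (x + Pi.single 2 s)) a s := by
    intro s
    have h1 : HasDerivAt (fun s : ℝ => x + s • (Pi.single 2 (1 : ℝ) : V))
        (Pi.single 2 (1 : ℝ) : V) s := by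
      simpa using ((hasDerivAt_id s).smul_const (Pi.single 2 (1 : ℝ) : V)).const_add x
    have h2 := ((diff_p hs hI (x + s • (Pi.single 2 (1 : ℝ) : V))).hasFDerivAt).comp_hasDerivAt
      s h1
    have h3 : fderiv ℝ (p t) (x + s • (Pi.single 2 (1 : ℝ) : V)) (Pi.single 2 1) = a := by
      rw [hsm]; exact key x s
    rw [h3] at h2
    have h4 : (p t ∘ fun s : ℝ => x + s • (Pi.single 2 (1 : ℝ) : V))
        = fun s : ℝ => p t (x + Pi.single 2 s) := by
      funext s; simp only [Function.comp_apply, hsm]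
    rwa [h4] at h2
  have hconst : ∀ s r : ℝ, p t (x + Pi.single 2 s) - a * s = p t (x + Pi.single 2 r) - a * r := by
    intro s r
    have hd : ∀ s : ℝ, HasDerivAt (fun s : ℝ => p t (x + Pi.single 2 s) - a * s) 0 s := by
      intro s
      have := (hg s).fun_sub ((hasDerivAt_id s).const_mul a)
      simpa using this
    exact is_const_of_deriv_eq_zero (fun s => (hd s).differentiableAt) (fun s => (hd s).deriv) s r
  have ha0 : a = 0 := by
    have e1 := hconst (2 * Real.pi) 0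
    have e2 := hs.periodic_p t hI 2 x
    rw [e2] at e1
    simp only [Pi.single_zero, add_zero, mul_zero, sub_zero] at e1
    have : a * (2 * Real.pi) = 0 := by linarith
    rcases mul_eq_zero.1 this with h' | h'
    · exact h'
    · exact absurd h' (by positivity)
  have e1 := hconst c 0
  rw [ha0] at e1
  simpa using e1

/-! ### the planar part as a solution on `𝕋³` -/

lemma planar_sol (hU : St_UNIQ) (h : ∀ T, IsC2Solution T u p) (h0 : Zind (u 0)) (T : ℝ) :
    IsClassicalSolution (Ico 0 T) (fun t x => Q (u t x)) p where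
  contDiffOn_u := Q.contDiff.comp_contDiffOn (h T).sol.contDiffOn_u
  contDiffOn_p := (h T).sol.contDiffOn_p
  periodic_u t ht i x := by
    simp only; rw [(h T).sol.periodic_u t ht i x]
  periodic_p := (h T).sol.periodic_p
  div_free t ht x := by
    have hd := diff_u (h T).sol ht x
    have h1 : fderiv ℝ (fun x => Q (u t x)) x = Q ∘L fderiv ℝ (u t) x :=
      (Q.hasFDerivAt.comp x hd.hasFDerivAt).fderiv
    have h2 := (h T).sol.div_free t ht x
    have h3 := congrFun (zind_fderiv (zind_u hU h h0 ht.1) hd) 2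
    rw [divergence_eq_sum] at h2 ⊢
    rw [h1]
    simp only [Fin.sum_univ_three, ContinuousLinearMap.comp_apply, Q_0, Q_1, Q_2] at h2 ⊢
    rw [h3] at h2
    simpa using h2
  momentum t ht x i := by
    have hd := diff_u (h T).sol ht x
    have h1 : fderiv ℝ (fun x => Q (u t x)) x = Q ∘L fderiv ℝ (u t) x :=
      (Q.hasFDerivAt.comp x hd.hasFDerivAt).fderiv
    have hm := mom1 (h T).sol ht x i
    have h2 := sum_mul_clm (fderiv ℝ (fun x => Q (u t x)) x) (Q (u t x)) i
    rw [h2, h1, ContinuousLinearMap.comp_apply, zind_fderiv_Q (zind_u hU h h0 ht.1) hd]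
    fin_cases i
    · simpa [Q_0] using hm
    · simpa [Q_1] using hm
    · have h3 := zind_fderiv (zind_p hU h h0 ht.1) (diff_p (h T).sol ht x)
      simp [Q_2, h3]

/-! ### the reflected solution -/

lemma mirror_sol (h : IsClassicalSolution (Ico 0 T) u p) :
    IsClassicalSolution (Ico 0 T) (fun t x => M (u t (M x))) (fun t x => p t (M x)) where
  contDiffOn_u := M.contDiff.comp_contDiffOn (h.contDiffOn_u.comp (t := Ico 0 T ×ˢ univ)
    (f := fun z : ℝ × V => (z.1, M z.2)) (by fun_prop) (fun z hz => ⟨hz.1, mem_univ _⟩))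
  contDiffOn_p := h.contDiffOn_p.comp (t := Ico 0 T ×ˢ univ)
    (f := fun z : ℝ × V => (z.1, M z.2)) (by fun_prop) (fun z hz => ⟨hz.1, mem_univ _⟩)
  periodic_u t ht i x := by
    simp only; rw [map_add, M_single]
    have : u t (M x + ep i • (Pi.single i (2 * Real.pi) : V)) = u t (M x) := by
      fin_cases i
      · simpa [ep] using h.periodic_u t ht 0 (M x)
      · have := h.periodic_u t ht 1 (M x - Pi.single 1 (2 * Real.pi))
        simp only [sub_add_cancel] at this
        simp only [ep, Fin.mk_one, Matrix.cons_val_one, Matrix.cons_val_zero, neg_smul, one_smul]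
        rw [← sub_eq_add_neg]; exact this.symm
      · simpa [ep] using h.periodic_u t ht 2 (M x)
    rw [this]
  periodic_p t ht i x := by
    simp only; rw [map_add, M_single]
    fin_cases i
    · simpa [ep] using h.periodic_p t ht 0 (M x)
    · have := h.periodic_p t ht 1 (M x - Pi.single 1 (2 * Real.pi))
      simp only [sub_add_cancel] at this
      simp only [ep, Fin.mk_one, Matrix.cons_val_one, Matrix.cons_val_zero, neg_smul, one_smul]
      rw [← sub_eq_add_neg]; exact this.symm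
    · simpa [ep] using h.periodic_p t ht 2 (M x)
  div_free t ht x := by
    have hd := diff_u h ht (M x)
    have h1 : fderiv ℝ (fun x => M (u t (M x))) x = M ∘L fderiv ℝ (u t) (M x) ∘L M :=
      (M.hasFDerivAt.comp x (hd.hasFDerivAt.comp x M.hasFDerivAt)).fderiv
    have h2 := h.div_free t ht (M x)
    rw [divergence_eq_sum] at h2 ⊢
    rw [h1, ← h2]
    refine Finset.sum_congr rfl fun i _ => ?_
    simp only [ContinuousLinearMap.comp_apply, M_single, map_smul, M_apply, Pi.smul_apply,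
      smul_eq_mul]
    rw [← mul_assoc, ep_sq, one_mul]
  momentum t ht x i := by
    have hd := diff_u h ht (M x)
    have h1 : fderiv ℝ (fun x => M (u t (M x))) x = M ∘L fderiv ℝ (u t) (M x) ∘L M :=
      (M.hasFDerivAt.comp x (hd.hasFDerivAt.comp x M.hasFDerivAt)).fderiv
    have h2 := sum_mul_clm (fderiv ℝ (fun x => M (u t (M x))) x) (M (u t (M x))) i
    have h3 : fderiv ℝ (fun x => p t (M x)) x = fderiv ℝ (p t) (M x) ∘L M :=
      ((diff_p h ht (M x)).hasFDerivAt.comp x M.hasFDerivAt).fderiv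
    have hm := mom1 h ht (M x) i
    rw [h2, h1, h3]
    simp only [ContinuousLinearMap.comp_apply, M_M, M_single, map_smul, M_apply, smul_eq_mul]
    have h4 : derivWithin (fun s => ep i * u s (M x) i) (Ico 0 T) t
        = ep i * derivWithin (fun s => u s (M x) i) (Ico 0 T) t :=
      derivWithin_const_mul_field _
    rw [h4]
    linear_combination (ep i) * hm

lemma mir_u (hU : St_UNIQ) (h : ∀ T, IsC2Solution T u p) (h0 : Zind (u 0)) (h1 : Mir (u 0))
    {t : ℝ} (ht : 0 ≤ t) : Mir (u t) := by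
  have hp := planar_sol hU h h0 (t + 1)
  have hq := mirror_sol hp
  have := hU (t + 1) _ _ _ _ hp hq (by
    funext x
    ext i
    simp only [M_apply]
    rw [M_mir]
    fin_cases i
    · simpa [ep, Q_0] using (h1 x).1
    · simpa [ep, Q_1] using congrArg (fun r => -r) (h1 x).2
    · simp [Q_2]) t ⟨ht, by linarith⟩
  intro x
  have e := congrFun this x
  have e0 := congrFun e 0
  have e1 := congrFun e 1
  simp only [M_apply, Q_0, Q_1] at e0 e1
  rw [M_mir] at e0 e1
  simp only [ep, Matrix.cons_val_zero, one_mul, Matrix.cons_val_one, neg_mul] at e0 e1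
  exact ⟨e0, by linarith⟩

/-! ### regularity of the planar part -/

lemma lift_Ici {G : Type*} [NormedAddCommGroup G] [NormedSpace ℝ G] {n : WithTop ℕ∞}
    {f : ℝ → V → G}
    (h : ∀ T, ContDiffOn ℝ n (fun z : ℝ × V => f z.1 z.2) (Ico 0 T ×ˢ univ)) :
    ContDiffOn ℝ n (fun q : ℝ × ℂ => f q.1 (E q.2)) (Ici 0 ×ˢ univ) := by
  rintro ⟨t, z⟩ ⟨ht, -⟩
  have ht' : (0 : ℝ) ≤ t := ht
  have h1 : ContDiffWithinAt ℝ n (fun q : ℝ × ℂ => f q.1 (E q.2)) (Ico 0 (t + 1) ×ˢ univ)
      (t, z) :=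
    (h (t + 1)).comp (t := Ico 0 (t + 1) ×ˢ univ) (s := Ico 0 (t + 1) ×ˢ univ)
      (f := fun q : ℝ × ℂ => (q.1, E q.2)) (by fun_prop) (fun q hq => ⟨hq.1, mem_univ _⟩)
      (t, z) ⟨⟨ht', by linarith⟩, mem_univ _⟩
  refine h1.mono_of_mem_nhdsWithin ?_
  rw [nhdsWithin_prod_eq]
  refine Filter.prod_mem_prod ?_ (by simp)
  have h2 : Iio (t + 1) ∈ 𝓝 t := Iio_mem_nhds (by linarith)
  filter_upwards [nhdsWithin_le_nhds h2, self_mem_nhdsWithin] with s hs1 hs2
  exact ⟨hs2, hs1⟩

lemma lift_Ioi {G : Type*} [NormedAddCommGroup G] [NormedSpace ℝ G] {n : WithTop ℕ∞}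
    {f : ℝ → V → G}
    (h : ∀ T, ContDiffOn ℝ n (fun z : ℝ × V => f z.1 z.2) (Ioo 0 T ×ˢ univ)) :
    ContDiffOn ℝ n (fun q : ℝ × ℂ => f q.1 (E q.2)) (Ioi 0 ×ˢ univ) := by
  rintro ⟨t, z⟩ ⟨ht, -⟩
  have ht' : (0 : ℝ) < t := ht
  have h1 : ContDiffWithinAt ℝ n (fun q : ℝ × ℂ => f q.1 (E q.2)) (Ioo 0 (t + 1) ×ˢ univ)
      (t, z) :=
    (h (t + 1)).comp (t := Ioo 0 (t + 1) ×ˢ univ) (s := Ioo 0 (t + 1) ×ˢ univ)
      (f := fun q : ℝ × ℂ => (q.1, E q.2)) (by fun_prop) (fun q hq => ⟨hq.1, mem_univ _⟩)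
      (t, z) ⟨⟨ht', by linarith⟩, mem_univ _⟩
  refine h1.mono_of_mem_nhdsWithin ?_
  rw [nhdsWithin_prod_eq]
  refine Filter.prod_mem_prod ?_ (by simp)
  have h2 : Iio (t + 1) ∈ 𝓝 t := Iio_mem_nhds (by linarith)
  filter_upwards [nhdsWithin_le_nhds h2, self_mem_nhdsWithin] with s hs1 hs2
  exact ⟨hs2, hs1⟩

lemma fderiv_pv (h : ∀ T, IsC2Solution T u p) {t : ℝ} (ht : 0 ≤ t) (z : ℂ) :
    HasFDerivAt (pv u t) (L ∘L fderiv ℝ (u t) (E z) ∘L E) z := by
  have hd := diff_u (h (t + 1)).sol (t := t) ⟨ht, by linarith⟩ (E z)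
  have h1 : pv u t = fun z => L (u t (E z)) := by funext z; exact pv_eq t z
  rw [h1]
  exact L.hasFDerivAt.comp z (hd.hasFDerivAt.comp z E.hasFDerivAt)

lemma fderiv_pp (h : ∀ T, IsC2Solution T u p) {t : ℝ} (ht : 0 ≤ t) (z : ℂ) :
    HasFDerivAt (fun z => p t (emb z)) (fderiv ℝ (p t) (E z) ∘L E) z := by
  have hd := diff_p (h (t + 1)).sol (t := t) ⟨ht, by linarith⟩ (E z)
  have h1 : (fun z => p t (emb z)) = fun z => p t (E z) := by funext z; rw [E_apply]
  rw [h1]
  exact hd.hasFDerivAt.comp z E.hasFDerivAt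

lemma E_one : E 1 = Pi.single 0 1 := by
  ext i; fin_cases i <;> simp [E]

lemma E_I : E I = Pi.single 1 1 := by
  ext i; fin_cases i <;> simp [E]

lemma emb_add (z w : ℂ) : emb (z + w) = emb z + emb w := by
  rw [← E_apply, ← E_apply, ← E_apply, map_add]

lemma emb_px : emb (2 * Real.pi : ℂ) = Pi.single 0 (2 * Real.pi) := by
  ext i; fin_cases i <;> simp [emb]

lemma emb_py : emb (2 * Real.pi * I : ℂ) = Pi.single 1 (2 * Real.pi) := by
  ext i; fin_cases i <;> simp [emb]

lemma emb_conj (z : ℂ) : emb ((starRingEnd ℂ) z) = mir (emb z) := by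
  ext i; fin_cases i <;> simp [emb, mir]

lemma time_deriv (h : ∀ T, IsC2Solution T u p) {t : ℝ} (ht : 0 < t) (x : V) (i : Fin 3) :
    HasDerivAt (fun s => u s x i)
      (-(fderiv ℝ (u t) x (u t x) i) - fderiv ℝ (p t) x (Pi.single i 1)) t := by
  have hI : t ∈ Ioo 0 (t + 1) := ⟨ht, by linarith⟩
  have hd := (h (t + 1)).du (z := (t, x)) (mem_Om hI x)
  have hline : HasDerivAt (fun s : ℝ => ((s, x) : ℝ × V)) (1, 0) t :=
    (hasDerivAt_id t).prodMk (hasDerivAt_const t x)
  have h1 : HasDerivAt (fun s => u s x)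
      (fderiv ℝ (fun z : ℝ × V => u z.1 z.2) (t, x) (1, 0)) t :=
    HasFDerivAt.comp_hasDerivAt (l := fun z : ℝ × V => u z.1 z.2)
      (f := fun s : ℝ => ((s, x) : ℝ × V)) t hd.hasFDerivAt hline
  have h2 := hasDerivAt_pi.1 h1 i
  have h3 := mom1 (h (t + 1)).sol (t := t) ⟨hI.1.le, hI.2⟩ x i
  rw [derivWithin_of_mem_nhds (Ico_mem_nhds hI.1 hI.2), h2.deriv] at h3
  refine h2.congr_deriv ?_
  linarith

lemma psol (hU : St_UNIQ) (h : ∀ T, IsC2Solution T u p) (h0 : Zind (u 0)) (h1 : Mir (u 0)) :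
    PSol (pv u) (fun t z => p t (emb z)) where
  v1 := by
    have e : (fun q : ℝ × ℂ => pv u q.1 q.2) = fun q => L (u q.1 (E q.2)) := by
      funext q; exact pv_eq _ _
    rw [e]
    exact L.contDiff.comp_contDiffOn (lift_Ici fun T => (h T).sol.contDiffOn_u)
  p1 := by
    have e : (fun q : ℝ × ℂ => p q.1 (emb q.2)) = fun q => p q.1 (E q.2) := by
      funext q; rw [E_apply]
    rw [e]
    exact lift_Ici fun T => (h T).sol.contDiffOn_p
  v2 := by
    have e : (fun q : ℝ × ℂ => pv u q.1 q.2) = fun q => L (u q.1 (E q.2)) := by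
      funext q; exact pv_eq _ _
    rw [e]
    exact L.contDiff.comp_contDiffOn (lift_Ioi fun T => (h T).u2)
  p2 := by
    have e : (fun q : ℝ × ℂ => p q.1 (emb q.2)) = fun q => p q.1 (E q.2) := by
      funext q; rw [E_apply]
    rw [e]
    exact lift_Ioi fun T => (h T).p2
  tr t ht z := by
    have hI : t ∈ Ico 0 (t + 1) := ⟨ht, by linarith⟩
    have hd := diff_u (h (t + 1)).sol hI (E z)
    have h2 := (h (t + 1)).sol.div_free t hI (E z)
    have h3 := congrFun (zind_fderiv (zind_u hU h h0 ht) hd) 2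
    rw [(fderiv_pv h ht z).fderiv]
    simp only [ContinuousLinearMap.comp_apply, E_one, E_I, L_re, L_im]
    rw [divergence_eq_sum] at h2
    simp only [Fin.sum_univ_three] at h2
    rw [h3] at h2
    simpa using h2
  mom t ht z := by
    have hd := diff_u (h (t + 1)).sol (t := t) ⟨ht.le, by linarith⟩ (E z)
    have e : (fun s => pv u s z) = fun s => L (u s (E z)) := by funext s; exact pv_eq _ _
    rw [e, (fderiv_pv h ht.le z).fderiv, (fderiv_pp h ht.le z).fderiv]
    have hu : HasDerivAt (fun s => u s (E z)) (fun i => -(fderiv ℝ (u t) (E z) (u t (E z)) i)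
        - fderiv ℝ (p t) (E z) (Pi.single i 1)) t :=
      hasDerivAt_pi.2 fun i => time_deriv h ht (E z) i
    have h2 := L.hasFDerivAt.comp_hasDerivAt t hu
    refine h2.congr_deriv ?_
    simp only [ContinuousLinearMap.comp_apply, E_one, E_I, pv_eq, E_L]
    rw [zind_fderiv_Q (zind_u hU h h0 ht.le) hd]
    apply Complex.ext
    · simp [L_re]
    · simp [L_im]
  perx t ht z := by
    have hI : t ∈ Ico 0 (t + 1) := ⟨ht, by linarith⟩
    unfold pv
    rw [emb_add, emb_px, (h (t + 1)).sol.periodic_u t hI]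
  pery t ht z := by
    have hI : t ∈ Ico 0 (t + 1) := ⟨ht, by linarith⟩
    unfold pv
    rw [emb_add, emb_py, (h (t + 1)).sol.periodic_u t hI]
  pperx t ht z := by
    have hI : t ∈ Ico 0 (t + 1) := ⟨ht, by linarith⟩
    rw [emb_add, emb_px, (h (t + 1)).sol.periodic_p t hI]
  ppery t ht z := by
    have hI : t ∈ Ico 0 (t + 1) := ⟨ht, by linarith⟩
    rw [emb_add, emb_py, (h (t + 1)).sol.periodic_p t hI]
  sym t ht z := by
    have hm := mir_u hU h h0 h1 ht (emb z)
    apply Complex.ext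
    · simp only [pv, emb_conj, Complex.conj_re]; exact hm.1
    · simp only [pv, emb_conj, Complex.conj_im]; exact hm.2

/-! ### the third component along planar trajectories -/

lemma u3_deriv (hU : St_UNIQ) (h : ∀ T, IsC2Solution T u p) (h0 : Zind (u 0)) {ξ : ℝ → ℂ}
    (hξ : ∀ t, 0 ≤ t → HasDerivWithinAt ξ (pv u t (ξ t)) (Ici 0) t) {t : ℝ} (ht : 0 ≤ t) :
    HasDerivWithinAt (fun s => u s (emb (ξ s)) 2) 0 (Ico 0 (t + 1)) t := by
  have hI : t ∈ Ico 0 (t + 1) := ⟨ht, by linarith⟩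
  have hs := (h (t + 1)).sol
  set S : Set (ℝ × V) := Ico 0 (t + 1) ×ˢ univ with hS
  set F : ℝ × V → V := fun z => u z.1 z.2 with hF
  set x : V := E (ξ t) with hx
  have hmem : (t, x) ∈ S := ⟨hI, mem_univ _⟩
  have hFd : HasFDerivWithinAt F (fderivWithin ℝ F S (t, x)) S (t, x) :=
    (hs.contDiffOn_u.differentiableOn one_ne_zero (t, x) hmem).hasFDerivWithinAt
  set F' := fderivWithin ℝ F S (t, x) with hF'
  -- partial derivatives
  have hx1 : HasFDerivAt (u t) (F' ∘L ContinuousLinearMap.inr ℝ ℝ V) x := by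
    rw [← hasFDerivWithinAt_univ]
    exact hFd.comp (t := S) (s := univ) (f := fun y : V => ((t, y) : ℝ × V)) x
      (hasFDerivAt_prodMk_right t x).hasFDerivWithinAt (fun y _ => ⟨hI, mem_univ _⟩)
  have ht1 : HasDerivWithinAt (fun s => u s x) (F' (1, 0)) (Ico 0 (t + 1)) t := by
    have hline : HasDerivWithinAt (fun s : ℝ => ((s, x) : ℝ × V)) (1, 0) (Ico 0 (t + 1)) t :=
      (hasDerivWithinAt_id t _).prodMk (hasDerivWithinAt_const t _ x)
    exact hFd.comp_hasDerivWithinAt (f := fun s : ℝ => ((s, x) : ℝ × V)) t hline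
      (fun s hs' => ⟨hs', mem_univ _⟩)
  have huq : UniqueDiffWithinAt ℝ (Ico 0 (t + 1)) t :=
    (uniqueDiffOn_Ico 0 (t + 1)) t hI
  have hc : HasDerivWithinAt (fun s : ℝ => ((s, E (ξ s)) : ℝ × V)) (1, E (pv u t (ξ t)))
      (Ico 0 (t + 1)) t :=
    (hasDerivWithinAt_id t _).prodMk
      (E.hasFDerivAt.comp_hasDerivWithinAt t ((hξ t ht).mono Ico_subset_Ici_self))
  have hcomp : HasDerivWithinAt (fun s => u s (E (ξ s))) (F' (1, E (pv u t (ξ t))))
      (Ico 0 (t + 1)) t :=
    hFd.comp_hasDerivWithinAt (f := fun s : ℝ => ((s, E (ξ s)) : ℝ × V)) t hc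
      (fun s hs' => ⟨hs', mem_univ _⟩)
  have h2 := hasDerivWithinAt_pi.1 hcomp 2
  have e0 : (fun s => u s (emb (ξ s)) 2) = fun s => u s (E (ξ s)) 2 := by
    funext s; rw [E_apply]
  rw [e0]
  refine h2.congr_deriv ?_
  have e1 : ((1, E (pv u t (ξ t))) : ℝ × V) = (1, 0) + (0, E (pv u t (ξ t))) := by simp
  have e2 : F' (0, E (pv u t (ξ t))) = fderiv ℝ (u t) x (u t x) := by
    have : F' (0, E (pv u t (ξ t))) = (F' ∘L ContinuousLinearMap.inr ℝ ℝ V) (E (pv u t (ξ t))) :=
      rfl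
    rw [this, ← hx1.fderiv, pv_eq, E_L, zind_fderiv_Q (zind_u hU h h0 ht) hx1.differentiableAt]
  have e3 : F' (1, 0) 2 = derivWithin (fun s => u s x 2) (Ico 0 (t + 1)) t :=
    ((hasDerivWithinAt_pi.1 ht1 2).derivWithin huq).symm
  have hm := mom1 hs hI x 2
  rw [zind_fderiv (zind_p hU h h0 ht) (diff_p hs hI x), neg_zero] at hm
  rw [e1, map_add, Pi.add_apply, e2, e3]
  exact hm

end Red

open Red

theorem red (hU : St_UNIQ) : St_RED := by
  intro u p h h0 h1
  refine ⟨psol hU h h0 h1, fun t ht => zind_u hU h h0 ht, ?_⟩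
  intro ξ hξ t ht
  have hd : ∀ s, 0 ≤ s → HasDerivWithinAt (fun s => u s (emb (ξ s)) 2) 0 (Ico 0 (s + 1)) s :=
    fun s hs => u3_deriv hU h h0 hξ hs
  have hcont : ContinuousOn (fun s => u s (emb (ξ s)) 2) (Icc 0 t) := by
    intro s hs
    have h2 := (hd s hs.1).continuousWithinAt
    refine h2.mono_of_mem_nhdsWithin ?_
    have h3 : Iio (s + 1) ∈ 𝓝 s := Iio_mem_nhds (by linarith)
    filter_upwards [nhdsWithin_le_nhds h3, self_mem_nhdsWithin] with r hr1 hr2
    exact ⟨hr2.1, hr1⟩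
  have hder : ∀ s ∈ Ico 0 t, HasDerivWithinAt (fun s => u s (emb (ξ s)) 2) 0 (Ici s) s := by
    intro s hs
    refine (hd s hs.1).mono_of_mem_nhdsWithin ?_
    have h3 : Iio (s + 1) ∈ 𝓝 s := Iio_mem_nhds (by linarith)
    filter_upwards [nhdsWithin_le_nhds h3, self_mem_nhdsWithin] with r hr1 hr2
    exact ⟨hs.1.trans hr2, hr1⟩
  exact constant_of_has_deriv_right_zero hcont hder t ⟨ht, le_rfl⟩

theorem same (hU : St_UNIQ) : St_SAME := by
  intro u w p q hu hw hu0 hw0 h0 t ht
  have h1 := planar_sol hU hu hu0 (t + 1)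
  have h2 := planar_sol hU hw hw0 (t + 1)
  have key : ∀ x, Q (w 0 x) = Q (u 0 x) := by
    intro x
    have ex : x = emb ⟨x 0, x 1⟩ + Pi.single 2 (x 2) := by
      ext i; fin_cases i <;> simp [emb]
    have hz := h0 ⟨x 0, x 1⟩
    have a0 : u 0 (emb ⟨x 0, x 1⟩) 0 = w 0 (emb ⟨x 0, x 1⟩) 0 := congrArg Complex.re hz
    have a1 : u 0 (emb ⟨x 0, x 1⟩) 1 = w 0 (emb ⟨x 0, x 1⟩) 1 := congrArg Complex.im hz
    rw [ex, hu0, hw0]
    ext i
    fin_cases i
    · simp [Q_0, a0]
    · simp [Q_1, a1]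
    · simp [Q_2]
  have h3 := hU (t + 1) _ _ _ _ h1 h2 (by funext x; exact key x) t ⟨ht, by linarith⟩
  funext z
  have h4 := congrFun h3 (emb z)
  apply Complex.ext
  · exact (congrFun h4 0).symm
  · exact (congrFun h4 1).symm

end Run7.h148.E3
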