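import Pool.Agent.Run7.h148.E3.Act
import Pool.Agent.Run7.h148.E3.RED
import Pool.Agent.Run7.h209.E3.Vort
import Pool.Agent.Run7.h209.E3.Uniq
import Pool.Agent.Run7.h664.E3.Key
import Pool.Agent.Run7.h664.E3.Ener
import Pool.Agent.Run7.h404.EP.Prob
import Pool.Agent.Run7.h404.EP.Fub

set_option autoImplicit false

open Metric Set MeasureTheory Filter Topology Complex

namespace Run7.h148.E3

open Pool.Agent.H708R2.EulerSign Pool.Agent.H708R2.EulerTypeI

lemma slice_fderiv' {E : Type*} [NormedAddCommGroup E] [NormedSpace ℝ E] {X : Type*}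
    [NormedAddCommGroup X] [NormedSpace ℝ X] {F : ℝ → X → E}
    (h : ContDiffOn ℝ 1 (fun q : ℝ × X => F q.1 q.2) (Ici 0 ×ˢ univ)) {t : ℝ} (ht : 0 ≤ t) (x : X) :
    HasFDerivAt (F t) ((fderivWithin ℝ (fun q : ℝ × X => F q.1 q.2) (Ici 0 ×ˢ univ) (t, x)).comp
      (ContinuousLinearMap.inr ℝ ℝ X)) x := by
  have h1 : HasFDerivWithinAt (fun q : ℝ × X => F q.1 q.2)
      (fderivWithin ℝ (fun q : ℝ × X => F q.1 q.2) (Ici 0 ×ˢ univ) (t, x)) (Ici 0 ×ˢ univ) (t, x) :=
    ((h.differentiableOn one_ne_zero) (t, x) ⟨ht, trivial⟩).hasFDerivWithinAt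
  have h2 : HasFDerivWithinAt (fun x : X => (t, x)) (ContinuousLinearMap.inr ℝ ℝ X) univ x :=
    (hasFDerivAt_prodMk_right t x).hasFDerivWithinAt
  have h3 := h1.comp x h2 (fun y _ => ⟨ht, trivial⟩)
  exact hasFDerivWithinAt_univ.1 h3

lemma cont_fderiv_slice {E : Type*} [NormedAddCommGroup E] [NormedSpace ℝ E] {X : Type*}
    [NormedAddCommGroup X] [NormedSpace ℝ X] {F : ℝ → X → E}
    (h : ContDiffOn ℝ 1 (fun q : ℝ × X => F q.1 q.2) (Ici 0 ×ˢ univ)) :
    ContinuousOn (fun q : ℝ × X => fderiv ℝ (F q.1) q.2) (Ici 0 ×ˢ univ) := by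
  have h1 := h.continuousOn_fderivWithin ((uniqueDiffOn_Ici (0:ℝ)).prod uniqueDiffOn_univ) le_rfl
  have h2 : ContinuousOn (fun q : ℝ × X =>
      (fderivWithin ℝ (fun q : ℝ × X => F q.1 q.2) (Ici 0 ×ˢ univ) q).comp
      (ContinuousLinearMap.inr ℝ ℝ X)) (Ici 0 ×ˢ univ) :=
    h1.clm_comp continuousOn_const
  refine h2.congr ?_
  rintro ⟨t, x⟩ ⟨ht, -⟩
  exact (slice_fderiv' h ht x).fderiv

theorem planar_of_psol {v : ℝ → ℂ → ℂ} {P : ℝ → ℂ → ℝ} (h : PSol v P) :
    Planar v (fun t z => fderiv ℝ (v t) z) where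
  cv := h.v1.continuousOn
  cD := cont_fderiv_slice h.v1
  hD := fun t ht z => ((slice_fderiv' h.v1 ht z).differentiableAt).hasFDerivAt
  tr := h.tr
  perx := h.perx
  pery := h.pery
  sym := h.sym
  vort := Run7.h209.E3.t_VORT v P h
  energy := fun t ht => (Run7.h664.E3.ener v P h t ht).1
  mean := fun t ht => (Run7.h664.E3.ener v P h t ht).2

/-- derivative of the embedding of the plane -/
noncomputable def embL : ℂ →L[ℝ] V :=
  ContinuousLinearMap.pi ![Complex.reCLM, Complex.imCLM, 0]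

lemma emb_eq (z : ℂ) : emb z = embL z := by
  ext i
  fin_cases i <;> simp [emb, embL]

lemma hasFDerivAt_emb (z : ℂ) : HasFDerivAt emb embL z := by
  have : emb = fun z => embL z := funext emb_eq
  rw [this]
  exact embL.hasFDerivAt

lemma embL_I : embL I = Pi.single 1 1 := by
  rw [← emb_eq]
  ext i
  fin_cases i <;> simp [emb]

lemma embL_one : embL 1 = Pi.single 0 1 := by
  rw [← emb_eq]
  ext i
  fin_cases i <;> simp [emb]

/-- `F t a = ∫_S |G + (a₁ sin x - a₂ cos x) X|` -/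
noncomputable def FF (A : ℝ → ℂ → ℂ →L[ℝ] ℂ) (W : ℂ → ℂ →L[ℝ] ℝ) (t : ℝ) (a : ℝ × ℝ) : ℝ :=
  ∫ z in St, |(-(A t z I).re * W z 1 + (A t z 1).re * W z I) +
    (a.1 * Real.sin z.re - a.2 * Real.cos z.re) * (A t z I).re|

lemma FF_cont {A : ℝ → ℂ → ℂ →L[ℝ] ℂ} {W : ℂ → ℂ →L[ℝ] ℝ}
    (cA : ContinuousOn (fun q : ℝ × ℂ => A q.1 q.2) (Ici 0 ×ˢ univ)) (cW : Continuous W) :
    ContinuousOn (fun q : ℝ × (ℝ × ℝ) => FF A W q.1 q.2) (Ici 0 ×ˢ univ) := by
  have cA' := ext_cont cA
  let f : ℝ × (ℝ × ℝ) → ℂ → ℝ := fun q z =>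
    |(-(A (max q.1 0) z I).re * W z 1 + (A (max q.1 0) z 1).re * W z I) +
    (q.2.1 * Real.sin z.re - q.2.2 * Real.cos z.re) * (A (max q.1 0) z I).re|
  have cf : Continuous (fun p : (ℝ × (ℝ × ℝ)) × ℂ => f p.1 p.2) := by
    have c0 : Continuous (fun p : (ℝ × (ℝ × ℝ)) × ℂ => A (max p.1.1 0) p.2) :=
      cA'.comp ((continuous_fst.comp continuous_fst).prodMk continuous_snd)
    have c1 : Continuous (fun p : (ℝ × (ℝ × ℝ)) × ℂ => (A (max p.1.1 0) p.2 I).re) :=
      Complex.continuous_re.comp (c0.clm_apply continuous_const)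
    have c2 : Continuous (fun p : (ℝ × (ℝ × ℝ)) × ℂ => (A (max p.1.1 0) p.2 1).re) :=
      Complex.continuous_re.comp (c0.clm_apply continuous_const)
    have c3 : Continuous (fun p : (ℝ × (ℝ × ℝ)) × ℂ => W p.2 1) :=
      (cW.comp continuous_snd).clm_apply continuous_const
    have c4 : Continuous (fun p : (ℝ × (ℝ × ℝ)) × ℂ => W p.2 I) :=
      (cW.comp continuous_snd).clm_apply continuous_const
    have c5 : Continuous (fun p : (ℝ × (ℝ × ℝ)) × ℂ => Real.sin p.2.re) :=
      Real.continuous_sin.comp (Complex.continuous_re.comp continuous_snd)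
    have c6 : Continuous (fun p : (ℝ × (ℝ × ℝ)) × ℂ => Real.cos p.2.re) :=
      Real.continuous_cos.comp (Complex.continuous_re.comp continuous_snd)
    have c7 : Continuous (fun p : (ℝ × (ℝ × ℝ)) × ℂ => p.1.2.1) := by fun_prop
    have c8 : Continuous (fun p : (ℝ × (ℝ × ℝ)) × ℂ => p.1.2.2) := by fun_prop
    exact (((c1.neg.mul c3).add (c2.mul c4)).add (((c7.mul c5).sub (c8.mul c6)).mul c1)).abs
  have h1 : Continuous (fun q : ℝ × (ℝ × ℝ) => ∫ x in (-Real.pi)..Real.pi,
      ∫ y in (0:ℝ)..Real.pi, f q ⟨x, y⟩) := by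
    apply intervalIntegral.continuous_parametric_intervalIntegral_of_continuous'
    apply intervalIntegral.continuous_parametric_intervalIntegral_of_continuous'
    have c9 : Continuous (fun p : ((ℝ × (ℝ × ℝ)) × ℝ) × ℝ => (p.1.1, (⟨p.1.2, p.2⟩ : ℂ))) :=
      (continuous_fst.comp continuous_fst).prodMk
        (cmk.comp ((continuous_snd.comp continuous_fst).prodMk continuous_snd))
    exact cf.comp c9
  refine h1.continuousOn.congr ?_
  rintro ⟨t, a⟩ ⟨ht, -⟩
  have ht' : max t 0 = t := max_eq_left ht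
  show FF A W t a = ∫ x in (-Real.pi)..Real.pi, ∫ y in (0:ℝ)..Real.pi, f (t, a) ⟨x, y⟩
  rw [← St_iter (F := f (t, a)) (cf.comp (continuous_const.prodMk continuous_id))]
  simp only [FF, f, ht']

lemma FF_steep {A : ℝ → ℂ → ℂ →L[ℝ] ℂ} {W : ℂ → ℂ →L[ℝ] ℝ}
    (cA : ContinuousOn (fun q : ℝ × ℂ => A q.1 q.2) (Ici 0 ×ˢ univ)) (cW : Continuous W)
    {c t : ℝ} (ht : 0 ≤ t) (hc : c * t ≤ ∫ z in St, |(A t z I).re|) :
    (∀ (a : ℝ × ℝ) (s : ℝ), c / 2 * t * |s| ≤ FF A W t a + FF A W t (a.1 + s, a.2)) ∨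
    (∀ (a : ℝ × ℝ) (s : ℝ), c / 2 * t * |s| ≤ FF A W t a + FF A W t (a.1, a.2 + s)) := by
  have cAt := slice_cont cA ht
  have c1 : Continuous (fun z : ℂ => (A t z I).re) :=
    Complex.continuous_re.comp (cAt.clm_apply continuous_const)
  have c2 : Continuous (fun z : ℂ => (A t z 1).re) :=
    Complex.continuous_re.comp (cAt.clm_apply continuous_const)
  have c3 : Continuous (fun z : ℂ => W z 1) := cW.clm_apply continuous_const
  have c4 : Continuous (fun z : ℂ => W z I) := cW.clm_apply continuous_const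
  have c5 : Continuous (fun z : ℂ => Real.sin z.re) := Real.continuous_sin.comp Complex.continuous_re
  have c6 : Continuous (fun z : ℂ => Real.cos z.re) := Real.continuous_cos.comp Complex.continuous_re
  have cF : ∀ a : ℝ × ℝ, Continuous (fun z : ℂ =>
      |(-(A t z I).re * W z 1 + (A t z 1).re * W z I) +
    (a.1 * Real.sin z.re - a.2 * Real.cos z.re) * (A t z I).re|) := fun a =>
    (((c1.neg.mul c3).add (c2.mul c4)).add
      (((continuous_const.mul c5).sub (continuous_const.mul c6)).mul c1)).abs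
  have cS : Continuous (fun z : ℂ => |Real.sin z.re| * |(A t z I).re|) := c5.abs.mul c1.abs
  have cC : Continuous (fun z : ℂ => |Real.cos z.re| * |(A t z I).re|) := c6.abs.mul c1.abs
  have hsum : c * t ≤ (∫ z in St, |Real.sin z.re| * |(A t z I).re|) +
      ∫ z in St, |Real.cos z.re| * |(A t z I).re| := by
    refine hc.trans ?_
    rw [← integral_add (St_int cS) (St_int cC)]
    apply setIntegral_mono_on (St_int c1.abs) ((St_int cS).add (St_int cC)) measurableSet_St
    intro z _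
    show |(A t z I).re| ≤ |Real.sin z.re| * |(A t z I).re| + |Real.cos z.re| * |(A t z I).re|
    rw [← add_mul]
    refine le_mul_of_one_le_left (abs_nonneg _) ?_
    have h1 : |Real.sin z.re| ≤ 1 := Real.abs_sin_le_one _
    have h2 : |Real.cos z.re| ≤ 1 := Real.abs_cos_le_one _
    have h3 := Real.sin_sq_add_cos_sq z.re
    rw [← sq_abs (Real.sin z.re), ← sq_abs (Real.cos z.re)] at h3
    nlinarith [abs_nonneg (Real.sin z.re), abs_nonneg (Real.cos z.re)]
  have hdiff : ∀ (a b : ℝ × ℝ), ∫ z in St,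
      |((a.1 - b.1) * Real.sin z.re - (a.2 - b.2) * Real.cos z.re) * (A t z I).re| ≤
      FF A W t a + FF A W t b := by
    intro a b
    unfold FF
    rw [← integral_add (St_int (cF a)) (St_int (cF b))]
    apply setIntegral_mono_on
    · exact St_int ((((continuous_const.mul c5).sub (continuous_const.mul c6)).mul c1)).abs
    · exact (St_int (cF a)).add (St_int (cF b))
    · exact measurableSet_St
    · intro z _
      refine le_trans (le_of_eq ?_) (abs_sub _ _)
      congr 1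
      ring
  by_cases hcase : c * t / 2 ≤ ∫ z in St, |Real.sin z.re| * |(A t z I).re|
  · left
    intro a s
    have h1 := hdiff a (a.1 + s, a.2)
    refine le_trans ?_ h1
    have h2 : ∫ z in St, |((a.1 - (a.1 + s)) * Real.sin z.re - (a.2 - a.2) * Real.cos z.re) *
        (A t z I).re| = |s| * ∫ z in St, |Real.sin z.re| * |(A t z I).re| := by
      rw [← integral_const_mul]
      congr 1
      funext z
      rw [← abs_mul, ← abs_mul]
      rw [show (a.1 - (a.1 + s)) * Real.sin z.re - (a.2 - a.2) * Real.cos z.re =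
        -(s * Real.sin z.re) by ring, neg_mul, abs_neg, mul_assoc]
    simp only at h2 ⊢
    rw [h2]
    have := mul_le_mul_of_nonneg_left hcase (abs_nonneg s)
    linarith
  · right
    have hcase' : c * t / 2 ≤ ∫ z in St, |Real.cos z.re| * |(A t z I).re| := by
      push Not at hcase; linarith
    intro a s
    have h1 := hdiff a (a.1, a.2 + s)
    refine le_trans ?_ h1
    have h2 : ∫ z in St, |((a.1 - a.1) * Real.sin z.re - (a.2 - (a.2 + s)) * Real.cos z.re) *
        (A t z I).re| = |s| * ∫ z in St, |Real.cos z.re| * |(A t z I).re| := by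
      rw [← integral_const_mul]
      congr 1
      funext z
      rw [← abs_mul, ← abs_mul]
      rw [show (a.1 - a.1) * Real.sin z.re - (a.2 - (a.2 + s)) * Real.cos z.re =
        s * Real.cos z.re by ring, mul_assoc]
    simp only at h2 ⊢
    rw [h2]
    have := mul_le_mul_of_nonneg_left hcase' (abs_nonneg s)
    linarith

end Run7.h148.E3
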