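import Pool.Agent.Run7.h148.E3.Asm

set_option autoImplicit false

open Metric Set MeasureTheory Filter Topology Complex

namespace Run7.h148.E3

open Pool.Agent.H708R2.EulerSign Pool.Agent.H708R2.EulerTypeI

lemma PFlow.congr {v v' : ℝ → ℂ → ℂ} {D D' : ℝ → ℂ → ℂ →L[ℝ] ℂ} {φ : ℝ → ℂ → ℂ}
    {A : ℝ → ℂ → ℂ →L[ℝ] ℂ} (h : PFlow v D φ A) (h1 : ∀ t, 0 ≤ t → v t = v' t)
    (h2 : ∀ t, 0 ≤ t → D t = D' t) : PFlow v' D' φ A :=
  { h with
    der := fun z t ht => by rw [← h1 t ht]; exact h.der z t ht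
    dA := fun z w t ht => by rw [← h2 t ht]; exact h.dA z w t ht }

variable {u : ℝ → V → V} {p : ℝ → V → ℝ}

lemma c1_slice (h : ∀ T, IsC2Solution T u p) {t : ℝ} (ht : 0 ≤ t) : ContDiff ℝ 1 (u t) :=
  contDiff_slice (h (t + 1)).sol.contDiffOn_u ⟨ht, by linarith⟩

lemma fderiv_shift {v : V → V} (hz : Zind v) (x : V) (c : ℝ) :
    fderiv ℝ v (x + Pi.single 2 c) = fderiv ℝ v x := by
  have h1 : (fun y => v (y + Pi.single 2 c)) = v := funext fun y => hz y c
  have h2 := fderiv_comp_add_right (𝕜 := ℝ) (f := v) (x := x) (Pi.single 2 c : V)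
  rw [h1] at h2
  exact h2.symm

lemma fderiv_e2 {v : V → V} (hv : ContDiff ℝ 1 v) (hz : Zind v) (x : V) :
    fderiv ℝ v x (Pi.single 2 1) = 0 := by
  have h1 : HasDerivAt (fun c : ℝ => x + c • (Pi.single 2 (1:ℝ) : V)) (Pi.single 2 1) 0 := by
    have := ((hasDerivAt_id (0:ℝ)).smul_const (Pi.single 2 (1:ℝ) : V)).const_add x
    simpa using this
  have h2 : HasFDerivAt v (fderiv ℝ v x) (x + (0:ℝ) • (Pi.single 2 (1:ℝ) : V)) := by
    rw [zero_smul, add_zero]
    exact ((hv.differentiable one_ne_zero) x).hasFDerivAt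
  have h3 := h2.comp_hasDerivAt (0:ℝ) h1
  have h4 : (v ∘ fun c : ℝ => x + c • (Pi.single 2 (1:ℝ) : V)) = fun _ => v x := by
    funext c
    have e : c • (Pi.single 2 (1:ℝ) : V) = Pi.single 2 c := by
      ext i; by_cases hi : i = 2
      · subst hi; simp
      · simp [hi]
    simp only [Function.comp, e]
    exact hz x c
  rw [h4] at h3
  exact h3.unique (hasDerivAt_const _ _)

lemma nrm_vort_ge {v : V → V} (hv : ContDiff ℝ 1 v) (hz : Zind v) (x : V) :
    |grad v x 2 1| ≤ nrm (vort v x) := by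
  have h0 : vort v x 0 = grad v x 2 1 := by
    have : grad v x 1 2 = 0 := by
      simp [grad, fderiv_e2 hv hz x]
    simp [vort, this]
  rw [← h0, nrm]
  apply Real.abs_le_sqrt
  simp only [dotProduct, Fin.sum_univ_three]
  nlinarith [sq_nonneg (vort v x 1), sq_nonneg (vort v x 2)]

lemma continuous_nrm_vort {v : V → V} (hv : ContDiff ℝ 1 v) : Continuous (fun x => nrm (vort v x)) := by
  have h1 := continuous_grad hv
  have h2 : ∀ i j, Continuous (fun x => grad v x i j) := fun i j => by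
    exact (continuous_apply j).comp ((continuous_apply i).comp h1)
  unfold nrm vort
  apply Real.continuous_sqrt.comp
  simp only [dotProduct, Fin.sum_univ_three]
  simp only [Matrix.cons_val_zero, Matrix.cons_val_one, Matrix.cons_val]
  have a := (h2 2 1).sub (h2 1 2)
  have b := (h2 0 2).sub (h2 2 0)
  have c := (h2 1 0).sub (h2 0 1)
  exact ((a.mul a).add (b.mul b)).add (c.mul c)

lemma emb_add (z : ℂ) : emb (z + 2 * Real.pi) = emb z + Pi.single 0 (2 * Real.pi) := by
  ext i
  fin_cases i <;> simp [emb]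

/-- derivative of the third component on the plane -/
lemma hasFDerivAt_W {v : V → V} (hv : ContDiff ℝ 1 v) (z : ℂ) :
    HasFDerivAt (fun z => v (emb z) 2)
      ((ContinuousLinearMap.proj 2 : V →L[ℝ] ℝ).comp ((fderiv ℝ v (emb z)).comp embL)) z := by
  have h1 : HasFDerivAt v (fderiv ℝ v (emb z)) (emb z) :=
    ((hv.differentiable one_ne_zero) (emb z)).hasFDerivAt
  have h2 := h1.comp z (hasFDerivAt_emb z)
  exact ((ContinuousLinearMap.proj 2 : V →L[ℝ] ℝ).hasFDerivAt).comp z h2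

theorem L1_lower (h : ∀ T, IsC2Solution T u p) (hz : Zind (u 0)) (hm : Mir (u 0))
    {φ : ℝ → ℂ → ℂ} {A : ℝ → ℂ → ℂ →L[ℝ] ℂ} (hF : PFlow (pv u) (pD u) φ A) {t : ℝ} (ht : 0 ≤ t) :
    2 * Real.pi * ∫ z in St, |-(A t z I).re * fderiv ℝ (fun z => u 0 (emb z) 2) z 1 +
        (A t z 1).re * fderiv ℝ (fun z => u 0 (emb z) 2) z I| ≤
      ∫ x in Icc (fun _ : Fin 3 => -Real.pi) (fun _ => Real.pi), nrm (vort (u t) x) := by
  obtain ⟨-, hZ, hW⟩ := red Run7.h209.E3.t_UNIQ u p h hz hm
  have hZt := hZ t ht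
  have c1 := c1_slice h ht
  have c10 := c1_slice h (le_refl 0)
  have cg : Continuous (fun x => |grad (u t) x 2 1|) :=
    ((continuous_apply 1).comp ((continuous_apply 2).comp (continuous_grad c1))).abs
  have hper : Periodic3 (u t) := (h (t + 1)).sol.periodic_u t ⟨ht, by linarith⟩
  -- the pointwise identity
  have hpt : ∀ z, |-(A t z I).re * fderiv ℝ (fun z => u 0 (emb z) 2) z 1 +
        (A t z 1).re * fderiv ℝ (fun z => u 0 (emb z) 2) z I| =
        |grad (u t) (emb (φ t z)) 2 1| := by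
    intro z
    have e1 : ∀ z, u t (emb (φ t z)) 2 = u 0 (emb z) 2 := by
      intro z
      have := hW (fun s => φ s z) (fun s hs => hF.der z s hs) t ht
      simpa only [hF.init] using this
    have d1 := (hasFDerivAt_W c1 (φ t z)).comp z (hF.hA t ht z)
    have e2 : ((fun z => u t (emb z) 2) ∘ φ t) = fun z => u 0 (emb z) 2 := funext e1
    rw [e2] at d1
    rw [d1.fderiv]
    have hdet := hF.det t ht z
    rw [clm_det] at hdet
    have e3 : A t z (((-(A t z I).re : ℝ) : ℂ) + ((A t z 1).re : ℝ) * I) = I := by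
      have e4 := clm_apply' (A t z) (((-(A t z I).re : ℝ) : ℂ) + ((A t z 1).re : ℝ) * I)
      rw [e4]
      apply Complex.ext
      · simp; ring
      · simp
        linarith
    set L := ((ContinuousLinearMap.proj 2 : V →L[ℝ] ℝ).comp
      ((fderiv ℝ (u t) (emb (φ t z))).comp embL)) with hL
    have e5 : -(A t z I).re * (L.comp (A t z)) 1 + (A t z 1).re * (L.comp (A t z)) I = L I := by
      conv_rhs => rw [← e3]
      have e6 : (((-(A t z I).re : ℝ) : ℂ) + ((A t z 1).re : ℝ) * I) =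
          (-(A t z I).re) • (1:ℂ) + (A t z 1).re • I := by
        simp
      rw [e6, map_add, map_smul, map_smul, map_add, map_smul, map_smul]
      simp
    rw [e5]
    have e7 : L I = grad (u t) (emb (φ t z)) 2 1 := by
      simp only [hL, ContinuousLinearMap.comp_apply, embL_I, ContinuousLinearMap.proj_apply, grad,
        Matrix.of_apply]
    rw [e7]
  simp_rw [hpt]
  have hmp := hF.mp t ht (fun w => |grad (u t) (emb w) 2 1|)
    (cg.comp (continuous_iff_continuousAt.2 fun z => (hasFDerivAt_emb z).continuousAt)) (by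
      intro w
      rw [emb_add]
      have := hper.grad 0 (emb w)
      rw [this])
  have e8 : ∫ z in St, |grad (u t) (emb (φ t z)) 2 1| = ∫ z in St, |grad (u t) (emb z) 2 1| := hmp
  rw [e8]
  have hfub := Run7.h404.EP.fub (fun x => |grad (u t) x 2 1|) cg (fun x => abs_nonneg _) (by
    intro x c
    simp only [grad, fderiv_shift hZt])
  refine hfub.trans ?_
  have hcomp : IsCompact (Icc (fun _ : Fin 3 => -Real.pi) (fun _ => Real.pi)) := isCompact_Icc
  apply setIntegral_mono_on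
  · exact cg.continuousOn.integrableOn_compact hcomp
  · exact (continuous_nrm_vort c1).continuousOn.integrableOn_compact hcomp
  · exact hcomp.measurableSet
  · intro x _
    exact nrm_vort_ge c1 hZt x

lemma zind_add {u₀ : V → V} (hz : Zind u₀) (a : ℝ × ℝ) {w : V → V}
    (hw : ∀ x, w x = u₀ x + ![0, 0, a.1 * Real.cos (x 0) + a.2 * Real.sin (x 0)]) : Zind w := by
  intro x c
  rw [hw, hw, hz]
  simp

lemma mir_add {u₀ : V → V} (hm : Mir u₀) (a : ℝ × ℝ) {w : V → V}
    (hw : ∀ x, w x = u₀ x + ![0, 0, a.1 * Real.cos (x 0) + a.2 * Real.sin (x 0)]) : Mir w := by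
  intro x
  rw [hw, hw]
  have := hm x
  simpa using this

lemma emb_decomp (x : V) : x = emb ⟨x 0, x 1⟩ + Pi.single 2 (x 2) := by
  ext i
  fin_cases i <;> simp [emb]

theorem main {u₀ : V → V} (hz : Zind u₀) (hm : Mir u₀)
    (hne : ∃ x y, u₀ x 0 ≠ u₀ y 0 ∨ u₀ x 1 ≠ u₀ y 1) {M : ℝ → ℝ} (hM : Measurable M)
    (hMi : IntegrableOn (fun t => M t / t ^ 2) (Ioi 1)) :
    ∀ᵐ a : ℝ × ℝ, ∀ (u : ℝ → V → V) (p : ℝ → V → ℝ), (∀ T, IsC2Solution T u p) →
      (∀ x, u 0 x = u₀ x + ![0, 0, a.1 * Real.cos (x 0) + a.2 * Real.sin (x 0)]) →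
      ∫⁻ t in {t | 1 < t ∧ ∫ x in Icc (fun _ : Fin 3 => -Real.pi) (fun _ => Real.pi),
        nrm (vort (u t) x) < M t}, ENNReal.ofReal (1 / t) < ⊤ := by
  by_cases hex : ∃ (a : ℝ × ℝ) (u : ℝ → V → V) (p : ℝ → V → ℝ), (∀ T, IsC2Solution T u p) ∧
      (∀ x, u 0 x = u₀ x + ![0, 0, a.1 * Real.cos (x 0) + a.2 * Real.sin (x 0)])
  swap
  · refine Eventually.of_forall fun a u p h1 h2 => ?_
    exact absurd ⟨a, u, p, h1, h2⟩ hex
  obtain ⟨b, w, q, hw, hw0⟩ := hex
  have hzw := zind_add hz b hw0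
  have hmw := mir_add hm b hw0
  obtain ⟨hps, -, -⟩ := red Run7.h209.E3.t_UNIQ w q hw hzw hmw
  have hpl : Planar (pv w) (pD w) := planar_of_psol hps
  obtain ⟨φ, A, hF⟩ := flow_exists _ _ hpl
  have hne' : ∃ z, pv w 0 z ≠ pv w 0 0 := by
    by_contra hcon
    push Not at hcon
    have key : ∀ x, u₀ x 0 = (pv w 0 0).re ∧ u₀ x 1 = (pv w 0 0).im := by
      intro x
      have h1 := hcon ⟨x 0, x 1⟩
      have h2 : w 0 x = w 0 (emb ⟨x 0, x 1⟩) := by
        conv_lhs => rw [emb_decomp x]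
        exact hzw _ _
      have h3 : w 0 x 0 = u₀ x 0 := by rw [hw0]; simp
      have h4 : w 0 x 1 = u₀ x 1 := by rw [hw0]; simp
      rw [← h1, ← h3, ← h4, h2]
      exact ⟨rfl, rfl⟩
    obtain ⟨x, y, hxy⟩ := hne
    rcases hxy with hxy | hxy
    · exact hxy ((key x).1.trans (key y).1.symm)
    · exact hxy ((key x).2.trans (key y).2.symm)
  obtain ⟨c, hc0, hc⟩ := act Run7.h664.E3.key (pv w) (pD w) φ A hpl hne' hF
  -- the third component of the datum
  let W0 : ℂ → ℝ := fun z => u₀ (emb z) 2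
  have cw := c1_slice hw (le_refl 0)
  have hW0 : W0 = fun z => w 0 (emb z) 2 - (b.1 * Real.cos z.re + b.2 * Real.sin z.re) := by
    funext z
    show u₀ (emb z) 2 = _
    rw [hw0]
    simp [emb]
  have hembC : ContDiff ℝ 1 emb := by
    have : emb = fun z => embL z := funext emb_eq
    rw [this]; exact embL.contDiff
  have creC : ContDiff ℝ 1 (fun z : ℂ => z.re) := Complex.reCLM.contDiff
  have hW0C : ContDiff ℝ 1 W0 := by
    rw [hW0]
    have h1 : ContDiff ℝ 1 (fun z => w 0 (emb z) 2) :=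
      (contDiff_apply ℝ ℝ (2 : Fin 3)).comp (cw.comp hembC)
    exact h1.sub ((contDiff_const.mul (Real.contDiff_cos.comp creC)).add
      (contDiff_const.mul (Real.contDiff_sin.comp creC)))
  have cW : Continuous (fun z => fderiv ℝ W0 z) := hW0C.continuous_fderiv one_ne_zero
  have hprob := Run7.h404.EP.prob (FF A (fun z => fderiv ℝ W0 z)) (c / 2)
    (fun t => M t / (2 * Real.pi)) (by positivity) (hM.div_const _) (FF_cont hF.cA cW)
    (fun t ht => FF_steep hF.cA cW (by linarith) (hc t (by linarith)))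
    (by
      have : (fun t => M t / (2 * Real.pi) / t ^ 2) = fun t => (1 / (2 * Real.pi)) * (M t / t ^ 2) := by
        funext t; ring
      rw [this]
      exact hMi.const_mul _)
  filter_upwards [hprob] with a ha u p h h0
  have hzu := zind_add hz a h0
  have hmu := mir_add hm a h0
  have hpv0 : ∀ z, pv w 0 z = pv u 0 z := by
    intro z
    unfold pv
    rw [hw0, h0]
    simp
  have hsame := same Run7.h209.E3.t_UNIQ w u q p hw h hzw hzu hpv0
  have hF' : PFlow (pv u) (pD u) φ A := hF.congr hsame (fun t ht => by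
    unfold pD; rw [hsame t ht])
  have hlow : ∀ t, 0 ≤ t → 2 * Real.pi * FF A (fun z => fderiv ℝ W0 z) t a ≤
      ∫ x in Icc (fun _ : Fin 3 => -Real.pi) (fun _ => Real.pi), nrm (vort (u t) x) := by
    intro t ht
    refine le_trans (le_of_eq ?_) (L1_lower h hzu hmu hF' ht)
    congr 1
    unfold FF
    congr 1
    funext z
    have hd : HasFDerivAt (fun z => u 0 (emb z) 2)
        (fderiv ℝ W0 z + ((-a.1 * Real.sin z.re + a.2 * Real.cos z.re) • Complex.reCLM)) z := by
      have e1 : (fun z => u 0 (emb z) 2) =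
          fun z => W0 z + (a.1 * Real.cos z.re + a.2 * Real.sin z.re) := by
        funext z
        rw [h0]
        simp [emb, W0]
      rw [e1]
      have h1 : HasFDerivAt W0 (fderiv ℝ W0 z) z :=
        ((hW0C.differentiable one_ne_zero) z).hasFDerivAt
      have h2 : HasFDerivAt (fun z : ℂ => z.re) Complex.reCLM z := Complex.reCLM.hasFDerivAt
      have h3 := h1.add ((h2.cos.const_mul a.1).add (h2.sin.const_mul a.2))
      refine h3.congr_fderiv (ContinuousLinearMap.ext fun y => ?_)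
      simp only [ContinuousLinearMap.add_apply, ContinuousLinearMap.smul_apply,
        Complex.reCLM_apply, smul_eq_mul]
      ring
    rw [hd.fderiv]
    congr 1
    simp only [ContinuousLinearMap.add_apply, ContinuousLinearMap.smul_apply,
        Complex.reCLM_apply, smul_eq_mul, Complex.one_re, Complex.I_re]
    ring
  refine lt_of_le_of_lt (lintegral_mono_set ?_) ha
  rintro t ⟨ht1, ht2⟩
  refine ⟨ht1, ?_⟩
  have h1 := hlow t (by linarith)
  rw [lt_div_iff₀ (by positivity)]
  linarith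

end Run7.h148.E3
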