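import Pool.Agent.H708R2.EulerTypeI.Defs

set_option autoImplicit false

/-!
Definitions for the generic growth of the vorticity of two-and-a-half dimensional Euler flows.
-/

open MeasureTheory Set Complex

namespace Run7.h148.E3

open Pool.Agent.H708R2.EulerSign Pool.Agent.H708R2.EulerTypeI

/-- the field does not depend on the third coordinate -/
def Zind {E : Type*} (f : V → E) : Prop := ∀ (x : V) (c : ℝ), f (x + Pi.single 2 c) = f x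

/-- reflection of the second coordinate -/
def mir (x : V) : V := ![x 0, - x 1, x 2]

/-- the planar part `(u_1, u_2)` of `u` is symmetric with respect to the mirror `x_2 = 0` -/
def Mir (f : V → V) : Prop := ∀ x : V, f (mir x) 0 = f x 0 ∧ f (mir x) 1 = - f x 1

/-- the plane `x_3 = 0` -/
def emb (z : ℂ) : V := ![z.re, z.im, 0]

/-- planar part of the velocity -/
def pv (u : ℝ → V → V) (t : ℝ) (z : ℂ) : ℂ := ⟨u t (emb z) 0, u t (emb z) 1⟩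

/-- derivative of the planar part of the velocity -/
noncomputable def pD (u : ℝ → V → V) (t : ℝ) (z : ℂ) : ℂ →L[ℝ] ℂ := fderiv ℝ (pv u t) z

/-- the half period cell `[-π, π) × [0, π]` -/
def St : Set ℂ := {z | -Real.pi ≤ z.re ∧ z.re < Real.pi ∧ 0 ≤ z.im ∧ z.im ≤ Real.pi}

/-- planar vorticity from the derivative of the velocity -/
noncomputable def om (D : ℝ → ℂ → ℂ →L[ℝ] ℂ) (t : ℝ) (z : ℂ) : ℝ := (D t z 1).im - (D t z I).re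

/-- planar, doubly periodic, mirror symmetric flow of an ideal fluid (times `t ≥ 0`) -/
structure Planar (v : ℝ → ℂ → ℂ) (D : ℝ → ℂ → ℂ →L[ℝ] ℂ) : Prop where
  cv : ContinuousOn (fun q : ℝ × ℂ => v q.1 q.2) (Ici 0 ×ˢ univ)
  cD : ContinuousOn (fun q : ℝ × ℂ => D q.1 q.2) (Ici 0 ×ˢ univ)
  hD : ∀ t, 0 ≤ t → ∀ z, HasFDerivAt (v t) (D t z) z
  tr : ∀ t, 0 ≤ t → ∀ z, (D t z 1).re + (D t z I).im = 0
  perx : ∀ t, 0 ≤ t → ∀ z, v t (z + 2 * Real.pi) = v t z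
  pery : ∀ t, 0 ≤ t → ∀ z, v t (z + 2 * Real.pi * I) = v t z
  sym : ∀ t, 0 ≤ t → ∀ z, v t ((starRingEnd ℂ) z) = (starRingEnd ℂ) (v t z)
  vort : ∀ ξ : ℝ → ℂ, (∀ t, 0 ≤ t → HasDerivWithinAt ξ (v t (ξ t)) (Ici 0) t) →
    ∀ t, 0 ≤ t → om D t (ξ t) = om D 0 (ξ 0)
  energy : ∀ t, 0 ≤ t → ∫ z in St, ‖v t z‖ ^ 2 = ∫ z in St, ‖v 0 z‖ ^ 2
  mean : ∀ t, 0 ≤ t → ∫ z in St, (v t z).re = ∫ z in St, (v 0 z).re

/-- the flow of a planar field, with its derivative -/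
structure PFlow (v : ℝ → ℂ → ℂ) (D : ℝ → ℂ → ℂ →L[ℝ] ℂ) (φ : ℝ → ℂ → ℂ)
    (A : ℝ → ℂ → ℂ →L[ℝ] ℂ) : Prop where
  init : ∀ z, φ 0 z = z
  der : ∀ z, ∀ t, 0 ≤ t → HasDerivWithinAt (fun s => φ s z) (v t (φ t z)) (Ici 0) t
  cφ : ContinuousOn (fun q : ℝ × ℂ => φ q.1 q.2) (Ici 0 ×ˢ univ)
  cA : ContinuousOn (fun q : ℝ × ℂ => A q.1 q.2) (Ici 0 ×ˢ univ)
  hA : ∀ t, 0 ≤ t → ∀ z, HasFDerivAt (φ t) (A t z) z
  A0 : ∀ z, A 0 z = ContinuousLinearMap.id ℝ ℂ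
  dA : ∀ z w, ∀ t, 0 ≤ t → HasDerivWithinAt (fun s => A s z w) (D t (φ t z) (A t z w)) (Ici 0) t
  det : ∀ t, 0 ≤ t → ∀ z, (A t z).det = 1
  perx : ∀ t, 0 ≤ t → ∀ z, φ t (z + 2 * Real.pi) = φ t z + 2 * Real.pi
  bot : ∀ t, 0 ≤ t → ∀ z : ℂ, z.im = 0 → (φ t z).im = 0
  top : ∀ t, 0 ≤ t → ∀ z : ℂ, z.im = Real.pi → (φ t z).im = Real.pi
  strip : ∀ t, 0 ≤ t → ∀ z : ℂ, 0 ≤ z.im → z.im ≤ Real.pi → 0 ≤ (φ t z).im ∧ (φ t z).im ≤ Real.pi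
  mp : ∀ t, 0 ≤ t → ∀ F : ℂ → ℝ, Continuous F → (∀ z, F (z + 2 * Real.pi) = F z) →
    ∫ z in St, F (φ t z) = ∫ z in St, F z

end Run7.h148.E3
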