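import Pool.Agent.Run7.h148.E3.Defs

set_option autoImplicit false

/-!
Interface of the project (helper148): for every non-constant mirror symmetric planar Euler flow
`v` on the torus and almost every third component `w_0 + a_1 cos x_1 + a_2 sin x_1`, the vorticity of
the (two-and-a-half dimensional) solution of the 3D Euler equations on `𝕋³` grows almost linearly
in `L¹`.  Every `def St_...` is a closed proposition to be proved in its own file.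
-/

open MeasureTheory Set Complex

namespace Run7.h148.E3

open Pool.Agent.H708R2.EulerSign Pool.Agent.H708R2.EulerTypeI

/-- UNIQ.  Uniqueness of classical solutions on `𝕋³` (energy estimate for `w - u` and Gronwall).
Adapt `Pool/Agent/H708R2/EulerSign/Uniq.lean` (there `u` is a pressureless solution; the new term is
`∫ (w-u)·∇(q-p) = 0`, by `integral_divergence_eq_zero` applied to `(q-p)(w-u)`). -/
def St_UNIQ : Prop :=
  ∀ (T : ℝ) (u w : ℝ → V → V) (p q : ℝ → V → ℝ), IsClassicalSolution (Ico 0 T) u p →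
    IsClassicalSolution (Ico 0 T) w q → w 0 = u 0 → ∀ t ∈ Ico 0 T, w t = u t

/-- a planar solution of the Euler equations: `v` velocity, `P` pressure, `C¹` for `t ≥ 0`, `C²` for
`t > 0`, doubly periodic, mirror symmetric -/
structure PSol (v : ℝ → ℂ → ℂ) (P : ℝ → ℂ → ℝ) : Prop where
  v1 : ContDiffOn ℝ 1 (fun q : ℝ × ℂ => v q.1 q.2) (Ici 0 ×ˢ univ)
  p1 : ContDiffOn ℝ 1 (fun q : ℝ × ℂ => P q.1 q.2) (Ici 0 ×ˢ univ)
  v2 : ContDiffOn ℝ 2 (fun q : ℝ × ℂ => v q.1 q.2) (Ioi 0 ×ˢ univ)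
  p2 : ContDiffOn ℝ 2 (fun q : ℝ × ℂ => P q.1 q.2) (Ioi 0 ×ˢ univ)
  tr : ∀ t, 0 ≤ t → ∀ z, (fderiv ℝ (v t) z 1).re + (fderiv ℝ (v t) z I).im = 0
  mom : ∀ t, 0 < t → ∀ z, HasDerivAt (fun s => v s z)
    (-(fderiv ℝ (v t) z (v t z)) - ⟨fderiv ℝ (P t) z 1, fderiv ℝ (P t) z I⟩) t
  perx : ∀ t, 0 ≤ t → ∀ z, v t (z + 2 * Real.pi) = v t z
  pery : ∀ t, 0 ≤ t → ∀ z, v t (z + 2 * Real.pi * I) = v t z
  pperx : ∀ t, 0 ≤ t → ∀ z, P t (z + 2 * Real.pi) = P t z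
  ppery : ∀ t, 0 ≤ t → ∀ z, P t (z + 2 * Real.pi * I) = P t z
  sym : ∀ t, 0 ≤ t → ∀ z, v t ((starRingEnd ℂ) z) = (starRingEnd ℂ) (v t z)

/-- RED (uses UNIQ).  Let `u` be a global `C²` solution whose initial velocity does not depend on
`x_3` and has a mirror symmetric planar part.  Then `u t` does not depend on `x_3` (UNIQ applied to
the translate `u t (x + c e_3)`), `p t` neither (`∂_3 p` is independent of `x_3` by the momentum
equation, and `p` is periodic), `(u_1, u_2)` solves the planar Euler equations, `u_3` is constant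
along planar trajectories (`∂_t u_3 + v·∇u_3 = 0`, chain rule; at `t = 0` by continuity), and the
planar part is mirror symmetric (UNIQ applied to `(u_1, u_2, 0)`, which solves the Euler equations
with the same pressure, and to its reflection `(u_1,-u_2,0)(x_1,-x_2,x_3)`). -/
def St_RED : Prop :=
  ∀ (u : ℝ → V → V) (p : ℝ → V → ℝ), (∀ T, IsC2Solution T u p) → Zind (u 0) → Mir (u 0) →
    PSol (pv u) (fun t z => p t (emb z)) ∧ (∀ t, 0 ≤ t → Zind (u t)) ∧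
    (∀ ξ : ℝ → ℂ, (∀ t, 0 ≤ t → HasDerivWithinAt ξ (pv u t (ξ t)) (Ici 0) t) →
      ∀ t, 0 ≤ t → u t (emb (ξ t)) 2 = u 0 (emb (ξ 0)) 2)

/-- VORT.  The vorticity is constant along trajectories: `ω_t + v·∇ω = 0` for `t > 0` by
differentiating the momentum equation (`v`, `P` are `C²` for `t > 0`; symmetry of second
derivatives), chain rule, continuity at `t = 0`. -/
def St_VORT : Prop :=
  ∀ (v : ℝ → ℂ → ℂ) (P : ℝ → ℂ → ℝ), PSol v P →
    ∀ ξ : ℝ → ℂ, (∀ t, 0 ≤ t → HasDerivWithinAt ξ (v t (ξ t)) (Ici 0) t) →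
      ∀ t, 0 ≤ t → om (fun t z => fderiv ℝ (v t) z) t (ξ t) =
        om (fun t z => fderiv ℝ (v t) z) 0 (ξ 0)

/-- ENER.  Energy and mean of `v_1` over the half cell are conserved (`d/dt` under the integral;
`v_2 = 0` on `y = 0` and on `y = π` by symmetry and periodicity; integration by parts on the
rectangle, iterated integrals). -/
def St_ENER : Prop :=
  ∀ (v : ℝ → ℂ → ℂ) (P : ℝ → ℂ → ℝ), PSol v P → ∀ t, 0 ≤ t →
    (∫ z in St, ‖v t z‖ ^ 2 = ∫ z in St, ‖v 0 z‖ ^ 2) ∧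
    (∫ z in St, (v t z).re = ∫ z in St, (v 0 z).re)

/-- SAME (uses UNIQ).  The planar part is determined by its initial value. -/
def St_SAME : Prop :=
  ∀ (u w : ℝ → V → V) (p q : ℝ → V → ℝ), (∀ T, IsC2Solution T u p) → (∀ T, IsC2Solution T w q) →
    Zind (u 0) → Zind (w 0) → (∀ z, pv u 0 z = pv w 0 z) → ∀ t, 0 ≤ t → pv u t = pv w t

/-- FLOW.  The flow of a planar field (adapt `Run7/h148/Flow1,2,3.lean`). -/
def St_FLOW : Prop :=
  ∀ (v : ℝ → ℂ → ℂ) (D : ℝ → ℂ → ℂ →L[ℝ] ℂ), Planar v D → ∃ φ A, PFlow v D φ A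

/-- the conserved mean of `v_1` -/
noncomputable def mn (v : ℝ → ℂ → ℂ) : ℝ := (∫ z in St, (v 0 z).re) / (2 * Real.pi ^ 2)

/-- stream function of `v - mean`, zero for `y = 0` and `y = π` -/
noncomputable def psi (v : ℝ → ℂ → ℂ) (t : ℝ) (z : ℂ) : ℝ :=
  - ∫ y in (0:ℝ)..z.im, ((v t ⟨z.re, y⟩).re - mn v)

/-- the density `g = - y (v_1 - mean) - ψ` of the action -/
noncomputable def gg (v : ℝ → ℂ → ℂ) (t : ℝ) (z : ℂ) : ℝ :=
  - z.im * ((v t z).re - mn v) - psi v t z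

/-- KEY.  With `ṽ_1 = v_1 - mean`:
`∫_S ω g = ½ ∫ ṽ_1² + 3/2 ∫ v_2² + (π/2) ∫ ṽ_1(x,π)² dx`, and `∫ ṽ_1² + v_2²` is conserved. -/
def St_KEY : Prop :=
  ∀ (v : ℝ → ℂ → ℂ) (D : ℝ → ℂ → ℂ →L[ℝ] ℂ), Planar v D → (∃ z, v 0 z ≠ v 0 0) →
    ∃ E : ℝ, 0 < E ∧ ∀ t, 0 ≤ t → E ≤ ∫ z in St, om D t z * gg v t z

/-- ACT (uses FLOW and KEY).  `a_T(z) = ∫_0^T g_t(φ_t(z)) dt`, `∂_y a_T = - Im φ_T · ∂_y Re φ_T`,
`a_T = 0` on `y = 0`, `∫_S ω_0 a_T = ∫_0^T ∫_S ω_t g_t ≥ E T`. -/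
def St_ACT : Prop :=
  ∀ (v : ℝ → ℂ → ℂ) (D : ℝ → ℂ → ℂ →L[ℝ] ℂ) (φ : ℝ → ℂ → ℂ) (A : ℝ → ℂ → ℂ →L[ℝ] ℂ),
    Planar v D → (∃ z, v 0 z ≠ v 0 0) → PFlow v D φ A →
    ∃ c : ℝ, 0 < c ∧ ∀ t, 0 ≤ t → c * t ≤ ∫ z in St, |(A t z I).re|

/-- PROB.  `F t` is a jointly continuous family of functions on the plane which are steep along one
of the two coordinate directions; then for almost every `a` the set of times where `F t a < M t` has
finite logarithmic measure (Fubini: for fixed `t` the set `{a ∈ [-R,R]² : F t a < M t}` has measure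
at most `2R · 2 M t / (c t)`). -/
def St_PROB : Prop :=
  ∀ (F : ℝ → ℝ × ℝ → ℝ) (c : ℝ) (M : ℝ → ℝ), 0 < c → Measurable M →
    ContinuousOn (fun q : ℝ × (ℝ × ℝ) => F q.1 q.2) (Ici 0 ×ˢ univ) →
    (∀ t, 1 ≤ t → (∀ (a : ℝ × ℝ) (s : ℝ), c * t * |s| ≤ F t a + F t (a.1 + s, a.2)) ∨
      (∀ (a : ℝ × ℝ) (s : ℝ), c * t * |s| ≤ F t a + F t (a.1, a.2 + s))) →
    IntegrableOn (fun t => M t / t ^ 2) (Ioi 1) →
    ∀ᵐ a : ℝ × ℝ, ∫⁻ t in {t | 1 < t ∧ F t a < M t}, ENNReal.ofReal (1 / t) < ⊤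

/-- FUB.  Integral over `𝕋³` of a function independent of `x_3`. -/
def St_FUB : Prop :=
  ∀ f : V → ℝ, Continuous f → (∀ x, 0 ≤ f x) → Zind f →
    2 * Real.pi * ∫ z in St, f (emb z) ≤
      ∫ x in Icc (fun _ : Fin 3 => -Real.pi) (fun _ => Real.pi), f x

end Run7.h148.E3
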