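import Pool.Agent.Run7.h148.E3.Flow3
import Pool.Agent.Run7.h148.E3.Iface

set_option autoImplicit false

open Metric Set MeasureTheory Filter Topology Complex
open scoped Pointwise

namespace Run7.h148.E3

variable {v : ℝ → ℂ → ℂ} {D : ℝ → ℂ → ℂ →L[ℝ] ℂ}

/-- reduction to a bounded cell -/
lemma exists_cell {E : Type*} {f : ℂ → E} (h1 : ∀ z, f (z + 2 * Real.pi) = f z)
    (h2 : ∀ z, f (z + 2 * Real.pi * I) = f z) (z : ℂ) :
    ∃ w : ℂ, ‖w‖ ≤ 4 * Real.pi ∧ f w = f z := by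
  have hm : ∀ (c : ℂ), (∀ z, f (z + c) = f z) → ∀ (m : ℤ) z, f (z + m • c) = f z := by
    intro c hc m z
    let P : AddSubgroup ℂ :=
      { carrier := {g | ∀ x, f (x + g) = f x}
        zero_mem' := by intro x; simp
        add_mem' := by
          intro a b ha hb x
          rw [← add_assoc, hb, ha]
        neg_mem' := by
          intro a ha x
          have := ha (x + -a)
          rw [neg_add_cancel_right] at this
          exact this.symm }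
    have : c ∈ P := hc
    exact (P.zsmul_mem this m) z
  obtain ⟨m, hm1, -⟩ := existsUnique_add_zsmul_mem_Ico Real.two_pi_pos z.re 0
  obtain ⟨n, hn1, -⟩ := existsUnique_add_zsmul_mem_Ico Real.two_pi_pos z.im 0
  refine ⟨z + m • (2 * Real.pi : ℂ) + n • (2 * Real.pi * I : ℂ), ?_, ?_⟩
  · have hre : (z + m • (2 * Real.pi : ℂ) + n • (2 * Real.pi * I : ℂ)).re =
        z.re + m • (2 * Real.pi) := by simp
    have him : (z + m • (2 * Real.pi : ℂ) + n • (2 * Real.pi * I : ℂ)).im =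
        z.im + n • (2 * Real.pi) := by simp
    refine (Complex.norm_le_abs_re_add_abs_im _).trans ?_
    rw [hre, him, abs_of_nonneg hm1.1, abs_of_nonneg hn1.1]
    linarith [hm1.2, hn1.2]
  · rw [hm _ h2, hm _ h1]

lemma Planar.Dper (h : Planar v D) {t : ℝ} (ht : 0 ≤ t) (c : ℂ) (hc : ∀ z, v t (z + c) = v t z) (z : ℂ) :
    D t (z + c) = D t z := by
  have h1 : HasFDerivAt (fun z => v t (z + c)) (D t (z + c)) z := by
    have := (h.hD t ht (z + c)).comp z ((hasFDerivAt_id z).add_const c)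
    simpa [Function.comp_def] using this
  have h2 : (fun z => v t (z + c)) = v t := funext hc
  rw [h2] at h1
  exact h1.unique (h.hD t ht z)

lemma Planar.bound (h : Planar v D) {T : ℝ} (hT : 0 ≤ T) :
    ∃ K : NNReal, 0 < K ∧ ∀ t z, ‖D (cl T t) z‖ ≤ K := by
  have hK : IsCompact (Icc 0 T ×ˢ closedBall (0:ℂ) (4 * Real.pi)) :=
    isCompact_Icc.prod (isCompact_closedBall _ _)
  obtain ⟨C, hC⟩ := hK.exists_bound_of_continuousOn (h.cD.mono (by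
    rintro ⟨t, z⟩ ⟨ht, -⟩; exact ⟨ht.1, trivial⟩))
  refine ⟨⟨max C 1, le_max_of_le_right zero_le_one⟩, ?_, fun t z => ?_⟩
  · rw [← NNReal.coe_pos]; exact lt_of_lt_of_le one_pos (le_max_right _ _)
  · have ht := cl_mem hT t
    obtain ⟨w, hw, hwz⟩ := exists_cell (f := D (cl T t))
      (h.Dper ht.1 _ (h.perx _ ht.1)) (h.Dper ht.1 _ (h.pery _ ht.1)) z
    rw [← hwz]
    exact (hC (cl T t, w) ⟨ht, by simpa using hw⟩).trans (le_max_left _ _)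

lemma Planar.wfld (h : Planar v D) {T : ℝ} (hT : 0 ≤ T) :
    ∃ K : NNReal, WFld K (fun t z => v (cl T t) z) (fun t z => D (cl T t) z) := by
  obtain ⟨K, hK0, hK⟩ := h.bound hT
  have hc : Continuous (fun p : ℝ × ℂ => (cl T p.1, p.2)) :=
    ((continuous_cl T).comp continuous_fst).prodMk continuous_snd
  refine ⟨K, hK0, ?_, ?_, ?_, hK, ?_⟩
  · exact h.cv.comp_continuous hc (fun p => ⟨(cl_mem hT _).1, trivial⟩)
  · exact h.cD.comp_continuous hc (fun p => ⟨(cl_mem hT _).1, trivial⟩)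
  · exact fun t z => h.hD _ (cl_mem hT _).1 z
  · exact fun t z => h.tr _ (cl_mem hT _).1 z

lemma Planar.im_bot (h : Planar v D) {t : ℝ} (ht : 0 ≤ t) {z : ℂ} (hz : z.im = 0) :
    (v t z).im = 0 := by
  have h1 := h.sym t ht z
  rw [Complex.conj_eq_iff_im.2 hz] at h1
  exact Complex.conj_eq_iff_im.1 h1.symm

lemma Planar.im_top (h : Planar v D) {t : ℝ} (ht : 0 ≤ t) {z : ℂ} (hz : z.im = Real.pi) :
    (v t z).im = 0 := by
  have h1 := h.sym t ht z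
  have h2 : (starRingEnd ℂ) z + 2 * Real.pi * I = z := by
    apply Complex.ext
    · simp
    · simp [hz]; ring
  rw [← h.pery t ht, h2] at h1
  exact Complex.conj_eq_iff_im.1 h1.symm

theorem flow_exists : St_FLOW := by
  intro v D h
  have hT : ∀ n : ℕ, (0:ℝ) ≤ (n:ℝ) + 1 := fun n => by positivity
  choose K hW using fun n : ℕ => h.wfld (hT n)
  choose φn hφ using fun n : ℕ => (hW n).exists_flow
  choose An hA using fun n : ℕ => (hφ n).exists_A (hW n)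
  -- consistency
  have hcons : ∀ (m n : ℕ) (t : ℝ), 0 ≤ t → t ≤ (m:ℝ) + 1 → t ≤ (n:ℝ) + 1 →
      ∀ x, φn m 0 t x = φn n 0 t x := by
    intro m n t ht hm hn x
    have h1 := ODE_solution_unique (v := fun t z => v (cl ((n:ℝ) + 1) t) z) (K := K n)
      (f := fun t => φn m 0 t x) (g := fun t => φn n 0 t x) (a := 0) (b := t)
      (fun t => (hW n).lip t)
      (fun r _ => ((hφ m).der 0 x r).continuousAt.continuousWithinAt)
      (fun r hr => by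
        have := ((hφ m).der 0 x r).hasDerivWithinAt (s := Ici r)
        rw [cl_of_mem (show r ∈ Icc (0:ℝ) ((m:ℝ) + 1) from ⟨hr.1, by linarith [hr.2]⟩)] at this
        rw [cl_of_mem (show r ∈ Icc (0:ℝ) ((n:ℝ) + 1) from ⟨hr.1, by linarith [hr.2]⟩)]
        exact this)
      (fun r _ => ((hφ n).der 0 x r).continuousAt.continuousWithinAt)
      (fun r _ => ((hφ n).der 0 x r).hasDerivWithinAt)
      (by rw [(hφ m).init, (hφ n).init])
    exact h1 ⟨ht, le_rfl⟩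
  have hconsA : ∀ (m n : ℕ) (t : ℝ), 0 ≤ t → t ≤ (m:ℝ) + 1 → t ≤ (n:ℝ) + 1 →
      ∀ x, An m t x = An n t x := by
    intro m n t ht hm hn x
    have h1 := ((hA m).hasStrict (hφ m) (hW m) (T := t) x t ⟨ht, le_rfl⟩).hasFDerivAt
    have h2 := ((hA n).hasStrict (hφ n) (hW n) (T := t) x t ⟨ht, le_rfl⟩).hasFDerivAt
    have h3 : φn m 0 t = φn n 0 t := funext (hcons m n t ht hm hn)
    rw [h3] at h1
    exact h1.unique h2
  set φ : ℝ → ℂ → ℂ := fun t z => φn ⌈t⌉₊ 0 t z with hφdef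
  set A : ℝ → ℂ → ℂ →L[ℝ] ℂ := fun t z => An ⌈t⌉₊ t z with hAdef
  have hce : ∀ t : ℝ, t ≤ (⌈t⌉₊ : ℝ) + 1 := fun t => (Nat.le_ceil t).trans (by linarith)
  have e1 : ∀ (n : ℕ) (t : ℝ), 0 ≤ t → t ≤ (n:ℝ) + 1 → ∀ z, φ t z = φn n 0 t z :=
    fun n t ht hn z => hcons _ _ _ ht (hce t) hn z
  have e2 : ∀ (n : ℕ) (t : ℝ), 0 ≤ t → t ≤ (n:ℝ) + 1 → ∀ z, A t z = An n t z :=
    fun n t ht hn z => hconsA _ _ _ ht (hce t) hn z
  have hnear : ∀ t : ℝ, 0 ≤ t → ∀ᶠ s in 𝓝[Ici 0] t, 0 ≤ s ∧ s ≤ (⌈t⌉₊ : ℝ) + 1 := by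
    intro t ht
    have h1 : ∀ᶠ s in 𝓝[Ici 0] t, s < (⌈t⌉₊ : ℝ) + 1 := by
      apply eventually_nhdsWithin_of_eventually_nhds
      apply eventually_lt_nhds
      exact lt_of_le_of_lt (Nat.le_ceil t) (by linarith)
    filter_upwards [h1, self_mem_nhdsWithin] with s hs hs2
    exact ⟨hs2, hs.le⟩
  have hclt : ∀ t : ℝ, 0 ≤ t → cl ((⌈t⌉₊ : ℝ) + 1) t = t := fun t ht =>
    cl_of_mem ⟨ht, hce t⟩
  have hφt : ∀ t, φ t = φn ⌈t⌉₊ 0 t := fun t => rfl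
  have hline0 : ∀ (n : ℕ) (t : ℝ) (z : ℂ), z.im = 0 → (v (cl ((n:ℝ) + 1) t) z).im = 0 := fun n t z hz =>
    h.im_bot (cl_mem (hT n) t).1 hz
  have hlineπ : ∀ (n : ℕ) (t : ℝ) (z : ℂ), z.im = Real.pi → (v (cl ((n:ℝ) + 1) t) z).im = 0 := fun n t z hz =>
    h.im_top (cl_mem (hT n) t).1 hz
  refine ⟨φ, A, ?_⟩
  constructor
  · -- init
    intro z
    show φn ⌈(0:ℝ)⌉₊ 0 0 z = z
    rw [(hφ _).init]
  · -- der
    intro z t ht
    have h1 := ((hφ ⌈t⌉₊).der 0 z t).hasDerivWithinAt (s := Ici 0)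
    rw [hclt t ht] at h1
    refine h1.congr_of_eventuallyEq ?_ rfl
    filter_upwards [hnear t ht] with s hs
    exact e1 _ s hs.1 hs.2 z
  · -- continuity
    rintro ⟨t, z⟩ ⟨ht, -⟩
    have h1 : ContinuousWithinAt (fun q : ℝ × ℂ => φn ⌈t⌉₊ 0 q.1 q.2) (Ici 0 ×ˢ univ) (t, z) :=
      ((hφ ⌈t⌉₊).cont (hW _) 0).continuousWithinAt
    refine h1.congr_of_eventuallyEq ?_ rfl
    have h2 : ∀ᶠ q : ℝ × ℂ in 𝓝[Ici 0 ×ˢ univ] (t, z), 0 ≤ q.1 ∧ q.1 ≤ (⌈t⌉₊ : ℝ) + 1 := by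
      rw [nhdsWithin_prod_eq]
      exact (hnear t ht).prod_inl _
    filter_upwards [h2] with q hq
    exact e1 _ q.1 hq.1 hq.2 q.2
  · rintro ⟨t, z⟩ ⟨ht, -⟩
    have h1 : ContinuousWithinAt (fun q : ℝ × ℂ => An ⌈t⌉₊ q.1 q.2) (Ici 0 ×ˢ univ) (t, z) :=
      (hA ⌈t⌉₊).contA (hφ _) (hW _) (t, z) ⟨ht, trivial⟩
    refine h1.congr_of_eventuallyEq ?_ rfl
    have h2 : ∀ᶠ q : ℝ × ℂ in 𝓝[Ici 0 ×ˢ univ] (t, z), 0 ≤ q.1 ∧ q.1 ≤ (⌈t⌉₊ : ℝ) + 1 := by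
      rw [nhdsWithin_prod_eq]
      exact (hnear t ht).prod_inl _
    filter_upwards [h2] with q hq
    exact e2 _ q.1 hq.1 hq.2 q.2
  · -- derivative
    intro t ht z
    exact ((hA ⌈t⌉₊).hasStrict (hφ _) (hW _) (T := t) z t ⟨ht, le_rfl⟩).hasFDerivAt
  · intro z
    show An ⌈(0:ℝ)⌉₊ 0 z = _
    exact (hA _).A0 z
  · intro z w t ht
    have h1 := ((hA ⌈t⌉₊).dAv z w t).hasDerivWithinAt (s := Ici 0)
    rw [hclt t ht] at h1
    refine h1.congr_of_eventuallyEq ?_ rfl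
    filter_upwards [hnear t ht] with s hs
    rw [e2 _ s hs.1 hs.2 z]
  · intro t ht z
    exact (hA ⌈t⌉₊).det (hW _) t z
  · intro t ht z
    exact (hφ ⌈t⌉₊).trans (hW _) _ (fun s z => h.perx _ (cl_mem (hT _) s).1 z) 0 t z
  · intro t ht z hz
    exact (hφ ⌈t⌉₊).line (hW _) 0 (hline0 _) 0 t z hz
  · intro t ht z hz
    exact (hφ ⌈t⌉₊).line (hW _) Real.pi (hlineπ _) 0 t z hz
  · intro t ht z hz1 hz2
    exact ⟨(hφ ⌈t⌉₊).above (hW _) 0 (hline0 _) 0 t z hz1,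
      (hφ ⌈t⌉₊).below (hW _) Real.pi (hlineπ _) 0 t z hz2⟩
  · intro t ht F _ hF
    let G : ℂ ≃ₜ ℂ :=
      { toFun := φn ⌈t⌉₊ 0 t
        invFun := φn ⌈t⌉₊ t 0
        left_inv := fun z => (hφ ⌈t⌉₊).inv (hW _) 0 t z
        right_inv := fun z => (hφ ⌈t⌉₊).inv (hW _) t 0 z
        continuous_toFun := (hφ ⌈t⌉₊).cont1 (hW _) 0 t
        continuous_invFun := (hφ ⌈t⌉₊).cont1 (hW _) t 0 }
    refine mp_St (G := G) ((hφ ⌈t⌉₊).mp (hW _) ht)
      ((hφ ⌈t⌉₊).trans (hW _) _ (fun s z => h.perx _ (cl_mem (hT _) s).1 z) 0 t) ?_ hF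
    intro z
    constructor
    · rintro ⟨h1, h2⟩
      have h3 : φn ⌈t⌉₊ t 0 (G z) = z := (hφ ⌈t⌉₊).inv (hW _) 0 t z
      have h4 := (hφ ⌈t⌉₊).above (hW _) 0 (hline0 _) t 0 (G z) h1
      have h5 := (hφ ⌈t⌉₊).below (hW _) Real.pi (hlineπ _) t 0 (G z) h2
      rw [h3] at h4 h5
      exact ⟨h4, h5⟩
    · rintro ⟨h1, h2⟩
      exact ⟨(hφ ⌈t⌉₊).above (hW _) 0 (hline0 _) 0 t z h1,
        (hφ ⌈t⌉₊).below (hW _) Real.pi (hlineπ _) 0 t z h2⟩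

end Run7.h148.E3
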