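import Pool.Agent.Run7.h148.Flow2
import Pool.Agent.Run7.h148.E3.Defs

set_option autoImplicit false

open Metric Set MeasureTheory Filter Topology Complex

namespace Run7.h148.E3

/-- a field on the plane, for all times, with bounded derivative -/
structure WFld (K : NNReal) (U : ℝ → ℂ → ℂ) (B : ℝ → ℂ → ℂ →L[ℝ] ℂ) : Prop where
  K0 : 0 < K
  cU : Continuous (fun p : ℝ × ℂ => U p.1 p.2)
  cB : Continuous (fun p : ℝ × ℂ => B p.1 p.2)
  hd : ∀ t z, HasFDerivAt (U t) (B t z) z
  bd : ∀ t z, ‖B t z‖ ≤ K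
  tr : ∀ t z, (B t z 1).re + (B t z I).im = 0

variable {K : NNReal} {U : ℝ → ℂ → ℂ} {B : ℝ → ℂ → ℂ →L[ℝ] ℂ}

lemma WFld.lip (h : WFld K U B) (t : ℝ) : LipschitzWith K (U t) := by
  apply lipschitzWith_of_nnnorm_fderiv_le (𝕜 := ℝ)
  · exact fun z => (h.hd t z).differentiableAt
  · intro z
    rw [(h.hd t z).fderiv]
    exact_mod_cast h.bd t z

structure WFlw (U : ℝ → ℂ → ℂ) (φ : ℝ → ℝ → ℂ → ℂ) : Prop where
  init : ∀ s x, φ s s x = x
  der : ∀ s x t, HasDerivAt (fun t => φ s t x) (U t (φ s t x)) t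

theorem WFld.exists_flow (h : WFld K U B) : ∃ φ : ℝ → ℝ → ℂ → ℂ, WFlw U φ := by
  have h1 : ∀ (s : ℝ) (x : ℂ), ∃ ξ : ℝ → ℂ, ξ s = x ∧ ∀ t, HasDerivAt ξ (U t (ξ t)) t := by
    intro s x
    obtain ⟨ξ, h2, h3⟩ := Pool.Agent.Helper118.Yud.global_ode (fun t z => U (t + s) z) K
      (fun t => h.lip (t + s))
      (by
        have : Continuous (fun p : ℝ × ℂ => (p.1 + s, p.2)) := by fun_prop
        exact h.cU.comp this) x
    refine ⟨fun t => ξ (t - s), by simpa using h2, fun t => ?_⟩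
    have h4 := (h3 (t - s)).comp_sub_const t s
    simpa using h4
  choose ξ h2 h3 using h1
  exact ⟨fun s t x => ξ s x t, ⟨h2, fun s x t => h3 s x t⟩⟩

variable {φ : ℝ → ℝ → ℂ → ℂ}

lemma flow_unique (h : WFld K U B) {ξ η : ℝ → ℂ}
    (h1 : ∀ t, HasDerivAt ξ (U t (ξ t)) t) (h2 : ∀ t, HasDerivAt η (U t (η t)) t)
    {s : ℝ} (h3 : ξ s = η s) : ξ = η :=
  ODE_solution_unique_univ (v := U) (s := fun _ => univ) (K := K) (t₀ := s)
    (fun t => (h.lip t).lipschitzOnWith) (fun t => ⟨h1 t, trivial⟩) (fun t => ⟨h2 t, trivial⟩) h3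

lemma WFlw.comp (hF : WFlw U φ) (h : WFld K U B) (r s t : ℝ) (x : ℂ) :
    φ s t (φ r s x) = φ r t x := by
  have := flow_unique h (hF.der s (φ r s x)) (hF.der r x) (s := s) (hF.init s _)
  exact congrFun this t

lemma WFlw.inv (hF : WFlw U φ) (h : WFld K U B) (s t : ℝ) (x : ℂ) :
    φ t s (φ s t x) = x := by rw [hF.comp h, hF.init]

lemma WFlw.lip (hF : WFlw U φ) (h : WFld K U B) (s t : ℝ) (x y : ℂ) :
    ‖φ s t x - φ s t y‖ ≤ Real.exp (K * |t - s|) * ‖x - y‖ := by
  rcases le_total s t with hst | hst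
  · have h1 := dist_le_of_trajectories_ODE (v := U) (K := K) (f := fun t => φ s t x)
      (g := fun t => φ s t y) (a := s) (b := t) (δ := ‖x - y‖) (fun t => h.lip t)
      (fun r _ => (hF.der s x r).continuousAt.continuousWithinAt)
      (fun r _ => (hF.der s x r).hasDerivWithinAt)
      (fun r _ => (hF.der s y r).continuousAt.continuousWithinAt)
      (fun r _ => (hF.der s y r).hasDerivWithinAt)
      (by rw [hF.init, hF.init, dist_eq_norm]) t ⟨hst, le_rfl⟩
    rw [dist_eq_norm] at h1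
    rw [abs_of_nonneg (by linarith), mul_comm]
    exact h1
  · have hd : ∀ z r, HasDerivAt (fun r => φ s (-r) z) (-U (-r) (φ s (-r) z)) r := by
      intro z r
      have := (hF.der s z (-r)).scomp r (hasDerivAt_neg r)
      simpa [Function.comp_def] using this
    have h1 := dist_le_of_trajectories_ODE (v := fun r z => -U (-r) z) (K := K)
      (f := fun r => φ s (-r) x)
      (g := fun r => φ s (-r) y) (a := -s) (b := -t) (δ := ‖x - y‖)
      (fun r => (h.lip (-r)).neg)
      (fun r _ => (hd x r).continuousAt.continuousWithinAt)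
      (fun r _ => (hd x r).hasDerivWithinAt)
      (fun r _ => (hd y r).continuousAt.continuousWithinAt)
      (fun r _ => (hd y r).hasDerivWithinAt)
      (by simp only [neg_neg]; rw [hF.init, hF.init, dist_eq_norm]) (-t) ⟨by linarith, le_rfl⟩
    simp only [neg_neg] at h1
    rw [dist_eq_norm] at h1
    rw [abs_of_nonpos (by linarith), mul_comm]
    convert h1 using 3
    ring

lemma WFlw.cont (hF : WFlw U φ) (h : WFld K U B) (s : ℝ) :
    Continuous (fun p : ℝ × ℂ => φ s p.1 p.2) := by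
  rw [continuous_iff_continuousAt]
  rintro ⟨t0, x0⟩
  have h1 : Tendsto (fun p : ℝ × ℂ => Real.exp (K * |p.1 - s|) * ‖p.2 - x0‖
      + ‖φ s p.1 x0 - φ s t0 x0‖) (𝓝 (t0, x0)) (𝓝 0) := by
    have c1 : Continuous (fun p : ℝ × ℂ => Real.exp (K * |p.1 - s|) * ‖p.2 - x0‖
      + ‖φ s p.1 x0 - φ s t0 x0‖) := by
      have c2 : Continuous (fun t => φ s t x0) :=
        continuous_iff_continuousAt.2 fun t => (hF.der s x0 t).continuousAt
      fun_prop
    have := c1.tendsto (t0, x0)
    simpa using this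
  rw [ContinuousAt, tendsto_iff_norm_sub_tendsto_zero]
  refine squeeze_zero (fun _ => norm_nonneg _) (fun p => ?_) h1
  calc ‖φ s p.1 p.2 - φ s t0 x0‖
      ≤ ‖φ s p.1 p.2 - φ s p.1 x0‖ + ‖φ s p.1 x0 - φ s t0 x0‖ := norm_sub_le_norm_sub_add_norm_sub _ _ _
    _ ≤ _ := by
      gcongr
      exact hF.lip h s p.1 p.2 x0

lemma WFlw.cont1 (hF : WFlw U φ) (h : WFld K U B) (s t : ℝ) : Continuous (φ s t) := by
  have := hF.cont h s
  have h2 : Continuous (fun x : ℂ => (t, x)) := by fun_prop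
  exact this.comp h2

/-- translation symmetry -/
lemma WFlw.trans (hF : WFlw U φ) (h : WFld K U B) (c : ℂ) (hc : ∀ t z, U t (z + c) = U t z)
    (s t : ℝ) (x : ℂ) : φ s t (x + c) = φ s t x + c := by
  have h1 : ∀ t, HasDerivAt (fun t => φ s t x + c) (U t (φ s t x + c)) t := by
    intro t
    rw [hc]
    exact (hF.der s x t).add_const c
  have := flow_unique h (hF.der s (x + c)) h1 (s := s) (by rw [hF.init, hF.init])
  exact congrFun this t

/-- the horizontal line `im = b` is invariant if the field is horizontal on it -/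
lemma WFlw.line (hF : WFlw U φ) (h : WFld K U B) (b : ℝ) (hb : ∀ t z, z.im = b → (U t z).im = 0)
    (s t : ℝ) (x : ℂ) (hx : x.im = b) : (φ s t x).im = b := by
  -- solve the scalar equation on the line
  obtain ⟨ξ, h2, h3⟩ := Pool.Agent.Helper118.Yud.global_ode
    (fun (t : ℝ) (y : ℝ) => (U (t + s) (⟨y, b⟩ : ℂ)).re) K
    (fun t => by
      apply LipschitzWith.of_dist_le_mul
      intro y y'
      have h4 := (h.lip (t + s)).dist_le_mul (⟨y, b⟩ : ℂ) ⟨y', b⟩
      have h5 : dist (⟨y, b⟩ : ℂ) ⟨y', b⟩ = dist y y' := Complex.dist_of_im_eq rfl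
      rw [h5] at h4
      refine le_trans ?_ h4
      rw [Real.dist_eq, dist_eq_norm, ← Complex.sub_re]
      exact Complex.abs_re_le_norm _)
    (by
      have : Continuous (fun p : ℝ × ℝ => (p.1 + s, (⟨p.2, b⟩ : ℂ))) := by
        refine (by fun_prop : Continuous fun p : ℝ × ℝ => p.1 + s).prodMk ?_
        have e : (fun p : ℝ × ℝ => (⟨p.2, b⟩ : ℂ)) = fun p => (p.2 : ℂ) + b * I := by
          funext p; apply Complex.ext <;> simp
        rw [e]; fun_prop
      exact Complex.continuous_re.comp (h.cU.comp this)) x.re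
  have h4 : ∀ t, HasDerivAt (fun t => (⟨ξ (t - s), b⟩ : ℂ)) (U t ⟨ξ (t - s), b⟩) t := by
    intro t
    have h5 : HasDerivAt (fun t => ξ (t - s)) ((U t ⟨ξ (t - s), b⟩).re) t := by
      have := (h3 (t - s)).comp_sub_const t s
      simpa using this
    have h6 := h5.ofReal_comp.add_const ((b : ℂ) * I)
    have e : (fun t => (⟨ξ (t - s), b⟩ : ℂ)) = fun t => ((ξ (t - s) : ℝ) : ℂ) + b * I := by
      funext p; apply Complex.ext <;> simp
    rw [e]
    have e2 : U t ⟨ξ (t - s), b⟩ = (((U t ⟨ξ (t - s), b⟩).re : ℝ) : ℂ) := by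
      apply Complex.ext
      · simp
      · simp only [Complex.ofReal_im]
        exact hb t _ rfl
    rw [e2]
    exact h6
  have := flow_unique h (hF.der s x) h4 (s := s) (by
    rw [hF.init]
    apply Complex.ext
    · simp [h2]
    · simp [hx])
  rw [congrFun this t]

/-- the strip between two invariant lines is invariant -/
lemma WFlw.above (hF : WFlw U φ) (h : WFld K U B) (b : ℝ) (hb : ∀ t z, z.im = b → (U t z).im = 0)
    (s t : ℝ) (x : ℂ) (hx : b ≤ x.im) : b ≤ (φ s t x).im := by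
  by_contra hcon
  push Not at hcon
  have hc : Continuous (fun r => (φ s r x).im) :=
    Complex.continuous_im.comp (continuous_iff_continuousAt.2 fun t => (hF.der s x t).continuousAt)
  have h1 : b ∈ (fun r => (φ s r x).im) '' (uIcc s t) := by
    apply intermediate_value_uIcc hc.continuousOn
    simp only [hF.init]
    rw [uIcc_of_ge (by linarith)]
    exact ⟨hcon.le, hx⟩
  obtain ⟨r, -, hr⟩ := h1
  have h2 := hF.line h b hb r t (φ s r x) hr
  rw [hF.comp h] at h2
  linarith

lemma WFlw.below (hF : WFlw U φ) (h : WFld K U B) (b : ℝ) (hb : ∀ t z, z.im = b → (U t z).im = 0)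
    (s t : ℝ) (x : ℂ) (hx : x.im ≤ b) : (φ s t x).im ≤ b := by
  by_contra hcon
  push Not at hcon
  have hc : Continuous (fun r => (φ s r x).im) :=
    Complex.continuous_im.comp (continuous_iff_continuousAt.2 fun t => (hF.der s x t).continuousAt)
  have h1 : b ∈ (fun r => (φ s r x).im) '' (uIcc s t) := by
    apply intermediate_value_uIcc hc.continuousOn
    simp only [hF.init]
    rw [uIcc_of_le (by linarith)]
    exact ⟨hx, hcon.le⟩
  obtain ⟨r, -, hr⟩ := h1
  have h2 := hF.line h b hb r t (φ s r x) hr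
  rw [hF.comp h] at h2
  linarith

end Run7.h148.E3
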