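import Pool.Agent.Run7.h148.E3.Flow1

set_option autoImplicit false

open Metric Set MeasureTheory Filter Topology Complex

namespace Run7.h148.E3

variable {K : NNReal} {U : ℝ → ℂ → ℂ} {B : ℝ → ℂ → ℂ →L[ℝ] ℂ} {φ : ℝ → ℝ → ℂ → ℂ}

/-- the fundamental solution of the linearised equation -/
structure IsA (B : ℝ → ℂ → ℂ →L[ℝ] ℂ) (φ : ℝ → ℝ → ℂ → ℂ) (A : ℝ → ℂ → ℂ →L[ℝ] ℂ) : Prop where
  A0 : ∀ z, A 0 z = ContinuousLinearMap.id ℝ ℂ
  dA : ∀ z t, HasDerivAt (fun t => A t z) ((B t (φ 0 t z)).comp (A t z)) t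

lemma WFlw.exists_A (hF : WFlw U φ) (h : WFld K U B) : ∃ A, IsA B φ A := by
  have h1 : ∀ x : ℂ, ∃ A : ℝ → ℂ →L[ℝ] ℂ, A 0 = ContinuousLinearMap.id ℝ ℂ ∧
      ∀ t, HasDerivAt A ((B t (φ 0 t x)).comp (A t)) t := by
    intro x
    have hcx : Continuous (fun t => φ 0 t x) :=
      continuous_iff_continuousAt.2 fun t => (hF.der 0 x t).continuousAt
    have hcB : Continuous (fun t => B t (φ 0 t x)) := by
      have : Continuous (fun t => (t, φ 0 t x)) := by fun_prop
      exact h.cB.comp this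
    exact Pool.Agent.Helper118.Yud.global_ode
      (fun (t : ℝ) (A : ℂ →L[ℝ] ℂ) => (B t (φ 0 t x)).comp A) K
      (by
        intro t
        apply LipschitzWith.of_dist_le_mul
        intro A A'
        rw [dist_eq_norm, dist_eq_norm, ← ContinuousLinearMap.comp_sub]
        exact (ContinuousLinearMap.opNorm_comp_le _ _).trans
          (mul_le_mul_of_nonneg_right (h.bd _ _) (norm_nonneg _)))
      (by
        have : Continuous (fun p : ℝ × (ℂ →L[ℝ] ℂ) => (B p.1 (φ 0 p.1 x)).comp p.2) :=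
          (hcB.comp continuous_fst).clm_comp continuous_snd
        exact this) (ContinuousLinearMap.id ℝ ℂ)
  choose A hA0 hA using h1
  exact ⟨fun t z => A z t, hA0, fun z t => hA z t⟩

variable {A : ℝ → ℂ → ℂ →L[ℝ] ℂ}

lemma IsA.dAv (hA : IsA B φ A) (z v : ℂ) (t : ℝ) :
    HasDerivAt (fun t => A t z v) (B t (φ 0 t z) (A t z v)) t := by
  have := (hA.dA z t).clm_apply (hasDerivAt_const t v)
  simpa using this

lemma IsA.cont (hA : IsA B φ A) (z : ℂ) : Continuous (fun t => A t z) :=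
  continuous_iff_continuousAt.2 fun t => (hA.dA z t).continuousAt

lemma IsA.det (hA : IsA B φ A) (h : WFld K U B) (t : ℝ) (x : ℂ) : (A t x).det = 1 := by
  let d : ℝ → ℝ := fun t => (A t x 1).re * (A t x I).im - (A t x 1).im * (A t x I).re
  have hd : ∀ t, HasDerivAt d 0 t := by
    intro t
    have htr := h.tr t (φ 0 t x)
    set E := B t (φ 0 t x) with hE
    have h1 := hA.dAv x 1 t
    have h2 := hA.dAv x I t
    have h1r : HasDerivAt (fun t => (A t x 1).re) (E (A t x 1)).re t :=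
      (Complex.reCLM.hasFDerivAt.comp_hasDerivAt t h1)
    have h1i : HasDerivAt (fun t => (A t x 1).im) (E (A t x 1)).im t :=
      (Complex.imCLM.hasFDerivAt.comp_hasDerivAt t h1)
    have h2r : HasDerivAt (fun t => (A t x I).re) (E (A t x I)).re t :=
      (Complex.reCLM.hasFDerivAt.comp_hasDerivAt t h2)
    have h2i : HasDerivAt (fun t => (A t x I).im) (E (A t x I)).im t :=
      (Complex.imCLM.hasFDerivAt.comp_hasDerivAt t h2)
    have h3 := (h1r.mul h2i).sub (h1i.mul h2r)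
    have h4 : ((E (A t x 1)).re * (A t x I).im + (A t x 1).re * (E (A t x I)).im -
        ((E (A t x 1)).im * (A t x I).re + (A t x 1).im * (E (A t x I)).re)) = 0 := by
      rw [clm_apply' E (A t x 1), clm_apply' E (A t x I)]
      simp only [Complex.add_re, Complex.add_im, Complex.real_smul, Complex.re_ofReal_mul,
        Complex.im_ofReal_mul]
      linear_combination ((A t x 1).re * (A t x I).im - (A t x 1).im * (A t x I).re) * htr
    rw [h4] at h3
    exact h3
  have h1 := is_const_of_deriv_eq_zero (f := d) (fun t => (hd t).differentiableAt)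
    (fun t => (hd t).deriv) t 0
  rw [clm_det]
  show d t = 1
  rw [h1]
  simp [d, hA.A0]

/-- everything stays in a ball, for bounded times -/
lemma WFlw.bdd (hF : WFlw U φ) (T : ℝ) (x : ℂ) : ∃ R : ℝ, 0 < R ∧ ∀ t ∈ Icc 0 T, ‖φ 0 t x‖ ≤ R := by
  have hcx : Continuous (fun t => φ 0 t x) :=
    continuous_iff_continuousAt.2 fun t => (hF.der 0 x t).continuousAt
  obtain ⟨C, hC⟩ := (isCompact_Icc (a := (0:ℝ)) (b := T)).exists_bound_of_continuousOn
    hcx.continuousOn
  exact ⟨max C 1, lt_of_lt_of_le one_pos (le_max_right _ _), fun t ht =>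
    (hC t ht).trans (le_max_left _ _)⟩

/-- equicontinuity of `B` along the trajectory of `x` -/
lemma WFlw.equi (hF : WFlw U φ) (h : WFld K U B) (T : ℝ) (x : ℂ) {ε : ℝ} (hε : 0 < ε) :
    ∃ η : ℝ, 0 < η ∧ η ≤ 1 ∧ ∀ s ∈ Icc 0 T, ∀ w, ‖w - φ 0 s x‖ < η → ‖B s w - B s (φ 0 s x)‖ < ε := by
  obtain ⟨R, hR, hRx⟩ := hF.bdd T x
  have hcomp : IsCompact (Icc 0 T ×ˢ closedBall (0:ℂ) (R + 1)) :=
    isCompact_Icc.prod (isCompact_closedBall _ _)
  obtain ⟨η, hη, hu⟩ := Metric.uniformContinuousOn_iff.1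
    (hcomp.uniformContinuousOn_of_continuous h.cB.continuousOn) _ hε
  refine ⟨min η 1, lt_min hη one_pos, min_le_right _ _, fun s hs w hw => ?_⟩
  have h1 : ‖w‖ ≤ R + 1 := by
    calc ‖w‖ = ‖(w - φ 0 s x) + φ 0 s x‖ := by rw [sub_add_cancel]
      _ ≤ ‖w - φ 0 s x‖ + ‖φ 0 s x‖ := norm_add_le _ _
      _ ≤ 1 + R := add_le_add (hw.le.trans (min_le_right _ _)) (hRx s hs)
      _ = R + 1 := add_comm _ _
  have h2 := hu (s, w) ⟨hs, by simpa using h1⟩ (s, φ 0 s x)
    ⟨hs, by simpa using (hRx s hs).trans (by linarith)⟩ (by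
      rw [Prod.dist_eq, dist_self, max_eq_right dist_nonneg, dist_eq_norm]
      exact lt_of_lt_of_le hw (min_le_left _ _))
  rwa [dist_eq_norm] at h2

theorem IsA.hasStrict (hA : IsA B φ A) (hF : WFlw U φ) (h : WFld K U B) {T : ℝ} (x : ℂ) :
    ∀ t ∈ Icc 0 T, HasStrictFDerivAt (φ 0 t) (A t x) x := by
  have hK0' : (0:ℝ) < K := by exact_mod_cast h.K0
  intro t ht
  rw [hasStrictFDerivAt_iff_isLittleO, Asymptotics.isLittleO_iff]
  intro c hc
  set M : ℝ := Real.exp (K * T) with hM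
  have hM0 : 0 < M := Real.exp_pos _
  have hε : 0 < c * K / (M * M) := by positivity
  obtain ⟨η, hη, -, hu⟩ := hF.equi h T x hε
  have hev : ∀ᶠ p : ℂ × ℂ in 𝓝 (x, x), ‖p.1 - x‖ < η / M ∧ ‖p.2 - x‖ < η / M := by
    have e2 : ∀ᶠ y in 𝓝 x, ‖y - x‖ < η / M := by
      have := Metric.ball_mem_nhds x (div_pos hη hM0)
      filter_upwards [this] with y hy
      rwa [Metric.mem_ball, dist_eq_norm] at hy
    exact e2.prod_nhds e2
  filter_upwards [hev] with p hp
  obtain ⟨hyx, hzx⟩ := hp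
  set y := p.1
  set z := p.2
  have hder : ∀ s, HasDerivAt (fun s => φ 0 s y - φ 0 s z - A s x (y - z))
      (U s (φ 0 s y) - U s (φ 0 s z) - B s (φ 0 s x) (A s x (y - z))) s :=
    fun s => ((hF.der 0 y s).sub (hF.der 0 z s)).sub (hA.dAv x (y - z) s)
  have hlipM : ∀ s ∈ Icc 0 T, ∀ a b : ℂ, ‖φ 0 s a - φ 0 s b‖ ≤ M * ‖a - b‖ := by
    intro s hs a b
    refine (hF.lip h 0 s a b).trans ?_
    gcongr
    rw [sub_zero, abs_of_nonneg hs.1, hM]
    apply Real.exp_le_exp.2
    exact mul_le_mul_of_nonneg_left hs.2 hK0'.le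
  have hbound : ∀ s ∈ Ico 0 T,
      ‖U s (φ 0 s y) - U s (φ 0 s z) - B s (φ 0 s x) (A s x (y - z))‖ ≤
      K * ‖φ 0 s y - φ 0 s z - A s x (y - z)‖ + (c * K / (M * M)) * (M * ‖y - z‖) := by
    intro s hs
    have hs' : s ∈ Icc 0 T := Ico_subset_Icc_self hs
    have hYb : φ 0 s y ∈ ball (φ 0 s x) η := by
      rw [Metric.mem_ball, dist_eq_norm]
      refine lt_of_le_of_lt (hlipM s hs' y x) ?_
      calc M * ‖y - x‖ < M * (η / M) := by gcongr
        _ = _ := by field_simp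
    have hZb : φ 0 s z ∈ ball (φ 0 s x) η := by
      rw [Metric.mem_ball, dist_eq_norm]
      refine lt_of_le_of_lt (hlipM s hs' z x) ?_
      calc M * ‖z - x‖ < M * (η / M) := by gcongr
        _ = _ := by field_simp
    have h1 := Convex.norm_image_sub_le_of_norm_hasFDerivWithin_le' (𝕜 := ℝ)
      (C := c * K / (M * M)) (f := U s) (f' := B s) (s := ball (φ 0 s x) η)
      (φ := B s (φ 0 s x)) (x := φ 0 s z) (y := φ 0 s y)
      (fun w hw => (h.hd s w).hasFDerivWithinAt)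
      (fun w hw => by
        rw [Metric.mem_ball, dist_eq_norm] at hw
        exact (hu s hs' w hw).le)
      (convex_ball _ _) hZb hYb
    have h2 : U s (φ 0 s y) - U s (φ 0 s z) - B s (φ 0 s x) (A s x (y - z)) =
        B s (φ 0 s x) (φ 0 s y - φ 0 s z - A s x (y - z)) +
        (U s (φ 0 s y) - U s (φ 0 s z) - B s (φ 0 s x) (φ 0 s y - φ 0 s z)) := by
      rw [map_sub (B s (φ 0 s x)) (φ 0 s y - φ 0 s z)]
      ring
    rw [h2]
    refine (norm_add_le _ _).trans (add_le_add ?_ ?_)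
    · exact (ContinuousLinearMap.le_opNorm _ _).trans
        (mul_le_mul_of_nonneg_right (h.bd _ _) (norm_nonneg _))
    · refine h1.trans ?_
      gcongr
      exact hlipM s hs' y z
  have h0 : ‖φ 0 0 y - φ 0 0 z - A 0 x (y - z)‖ ≤ 0 := by
    rw [hF.init, hF.init, hA.A0]; simp
  have hg := norm_le_gronwallBound_of_norm_deriv_right_le
    (f := fun s => φ 0 s y - φ 0 s z - A s x (y - z)) (δ := 0) (a := 0) (b := T)
    (fun s _ => (hder s).continuousAt.continuousWithinAt)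
    (fun s _ => (hder s).hasDerivWithinAt) h0 hbound t ht
  refine hg.trans ?_
  rw [gronwallBound_of_K_ne_0 hK0'.ne']
  simp only [zero_mul, zero_add, sub_zero]
  have h5 : Real.exp (K * t) ≤ M := Real.exp_le_exp.2 (mul_le_mul_of_nonneg_left ht.2 hK0'.le)
  calc c * K / (M * M) * (M * ‖y - z‖) / K * (Real.exp (K * t) - 1)
      ≤ c * K / (M * M) * (M * ‖y - z‖) / K * M := by
        gcongr; linarith
    _ = c * ‖y - z‖ := by field_simp

/-- joint continuity of the derivative, for nonnegative times -/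
theorem IsA.contA (hA : IsA B φ A) (hF : WFlw U φ) (h : WFld K U B) :
    ContinuousOn (fun q : ℝ × ℂ => A q.1 q.2) (Ici 0 ×ˢ univ) := by
  have hK0' : (0:ℝ) < K := by exact_mod_cast h.K0
  rintro ⟨t0, z0⟩ ⟨ht0, -⟩
  simp only [mem_Ici] at ht0
  set T : ℝ := t0 + 1 with hT
  set M : ℝ := Real.exp (K * T) with hM
  have hM0 : 0 < M := Real.exp_pos _
  -- bound for `A s z0`
  obtain ⟨C, hC⟩ := (isCompact_Icc (a := (0:ℝ)) (b := T)).exists_bound_of_continuousOn
    (hA.cont z0).continuousOn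
  have hC0 : 0 ≤ C := (norm_nonneg _).trans (hC 0 ⟨le_rfl, by linarith⟩)
  rw [ContinuousWithinAt, Metric.tendsto_nhdsWithin_nhds]
  intro ε hε
  have hε1 : 0 < ε / 4 * K / (M * (C + 1)) := by positivity
  obtain ⟨η, hη, -, hu⟩ := hF.equi h T z0 hε1
  have hct : ContinuousAt (fun t => A t z0) t0 := (hA.cont z0).continuousAt
  obtain ⟨δ, hδ, hδ2⟩ := Metric.continuousAt_iff.1 hct (ε / 2) (half_pos hε)
  refine ⟨min (min δ 1) (η / M), by positivity, ?_⟩
  rintro ⟨t, z⟩ ⟨ht, -⟩ hd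
  simp only [mem_Ici] at ht
  rw [Prod.dist_eq] at hd
  have hd1 : dist t t0 < min δ 1 := lt_of_le_of_lt (le_max_left _ _) (lt_of_lt_of_le hd (min_le_left _ _))
  have hd2 : ‖z - z0‖ < η / M := by
    rw [← dist_eq_norm]
    exact lt_of_le_of_lt (le_max_right _ _) (lt_of_lt_of_le hd (min_le_right _ _))
  have htT : t ∈ Icc 0 T := by
    refine ⟨ht, ?_⟩
    have := lt_of_lt_of_le hd1 (min_le_right _ _)
    rw [Real.dist_eq] at this
    linarith [(abs_lt.1 this).2]
  have h1 : dist (A t z0) (A t0 z0) < ε / 2 := hδ2 (lt_of_lt_of_le hd1 (min_le_left _ _))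
  have hder : ∀ s, HasDerivAt (fun s => A s z - A s z0)
      ((B s (φ 0 s z)).comp (A s z) - (B s (φ 0 s z0)).comp (A s z0)) s :=
    fun s => (hA.dA z s).sub (hA.dA z0 s)
  have hbound : ∀ s ∈ Ico 0 T,
      ‖(B s (φ 0 s z)).comp (A s z) - (B s (φ 0 s z0)).comp (A s z0)‖ ≤
      K * ‖A s z - A s z0‖ + (ε / 4 * K / (M * (C + 1))) * C := by
    intro s hs
    have hs' : s ∈ Icc 0 T := Ico_subset_Icc_self hs
    have h2 : ‖φ 0 s z - φ 0 s z0‖ < η := by
      refine lt_of_le_of_lt (hF.lip h 0 s z z0) ?_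
      have : Real.exp (K * |s - 0|) ≤ M := by
        rw [sub_zero, abs_of_nonneg hs.1, hM]
        exact Real.exp_le_exp.2 (mul_le_mul_of_nonneg_left hs.2.le hK0'.le)
      calc Real.exp (K * |s - 0|) * ‖z - z0‖ ≤ M * ‖z - z0‖ := by gcongr
        _ < M * (η / M) := by gcongr
        _ = η := by field_simp
    have h3 : (B s (φ 0 s z)).comp (A s z) - (B s (φ 0 s z0)).comp (A s z0) =
        (B s (φ 0 s z)).comp (A s z - A s z0) + (B s (φ 0 s z) - B s (φ 0 s z0)).comp (A s z0) := by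
      ext <;> simp
    rw [h3]
    refine (norm_add_le _ _).trans (add_le_add ?_ ?_)
    · exact (ContinuousLinearMap.opNorm_comp_le _ _).trans
        (mul_le_mul_of_nonneg_right (h.bd _ _) (norm_nonneg _))
    · refine (ContinuousLinearMap.opNorm_comp_le _ _).trans ?_
      exact mul_le_mul (hu s hs' _ h2).le (hC s hs') (norm_nonneg _) hε1.le
  have h0 : ‖A 0 z - A 0 z0‖ ≤ 0 := by rw [hA.A0, hA.A0]; simp
  have hg := norm_le_gronwallBound_of_norm_deriv_right_le
    (f := fun s => A s z - A s z0) (δ := 0) (a := 0) (b := T)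
    (fun s _ => (hder s).continuousAt.continuousWithinAt)
    (fun s _ => (hder s).hasDerivWithinAt) h0 hbound t htT
  rw [gronwallBound_of_K_ne_0 hK0'.ne'] at hg
  simp only [zero_mul, zero_add, sub_zero] at hg
  have h5 : Real.exp (K * t) ≤ M := Real.exp_le_exp.2 (mul_le_mul_of_nonneg_left htT.2 hK0'.le)
  have h6 : ε / 4 * K / (M * (C + 1)) * C / K * (Real.exp (K * t) - 1) < ε / 2 := by
    calc ε / 4 * K / (M * (C + 1)) * C / K * (Real.exp (K * t) - 1)
        ≤ ε / 4 * K / (M * (C + 1)) * C / K * M := by gcongr; linarith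
      _ = ε / 4 * (C / (C + 1)) := by field_simp
      _ ≤ ε / 4 * 1 := by
        gcongr
        rw [div_le_one (by positivity)]; linarith
      _ < ε / 2 := by linarith
  have h7 : dist (A t z) (A t z0) < ε / 2 := by
    rw [dist_eq_norm]; exact lt_of_le_of_lt hg h6
  show dist (A t z) (A t0 z0) < ε
  linarith [dist_triangle (A t z) (A t z0) (A t0 z0)]

end Run7.h148.E3
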