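import Pool.Agent.Run7.h148.E3.Flow2

set_option autoImplicit false

open Metric Set MeasureTheory Filter Topology Complex
open scoped Pointwise

namespace Run7.h148.E3

variable {K : NNReal} {U : ℝ → ℂ → ℂ} {B : ℝ → ℂ → ℂ →L[ℝ] ℂ} {φ : ℝ → ℝ → ℂ → ℂ}
  {A : ℝ → ℂ → ℂ →L[ℝ] ℂ}

theorem WFlw.mp (hF : WFlw U φ) (h : WFld K U B) {t : ℝ} (ht : 0 ≤ t) :
    MeasurePreserving (φ 0 t) volume volume := by
  obtain ⟨A, hA⟩ := hF.exists_A h
  refine ⟨(hF.cont1 h 0 t).measurable, ?_⟩
  ext s hs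
  rw [Measure.map_apply (hF.cont1 h 0 t).measurable hs]
  have hm : MeasurableSet (φ 0 t ⁻¹' s) := (hF.cont1 h 0 t).measurable hs
  have h1 := lintegral_abs_det_fderiv_eq_addHaar_image (volume : Measure ℂ)
    (s := φ 0 t ⁻¹' s) (f := φ 0 t) (f' := fun x => A t x) hm
    (fun x _ => ((hA.hasStrict hF h x) t ⟨ht, le_rfl⟩).hasFDerivAt.hasFDerivWithinAt)
    (fun x _ y _ hxy => by
      have := congrArg (φ t 0) hxy
      rwa [hF.inv h, hF.inv h] at this)
  have h2 : ∫⁻ x in φ 0 t ⁻¹' s, ENNReal.ofReal |(A t x).det| = ∫⁻ x in φ 0 t ⁻¹' s, 1 := by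
    refine setLIntegral_congr_fun hm (fun x _ => ?_)
    simp only [hA.det h t x]
    simp
  rw [h2, setLIntegral_one] at h1
  rw [h1]
  congr 1
  apply image_preimage_eq
  intro y
  exact ⟨φ t 0 y, hF.inv h t 0 y⟩

/-- the full vertical period strip -/
def Dm : Set ℂ := {z | -Real.pi ≤ z.re ∧ z.re < Real.pi}

/-- translations by multiples of `2π` -/
noncomputable abbrev Gp : AddSubgroup ℂ := AddSubgroup.zmultiples (2 * Real.pi : ℂ)

lemma measurableSet_Dm : MeasurableSet Dm :=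
  (measurableSet_le measurable_const Complex.measurable_re).inter
    (measurableSet_lt Complex.measurable_re measurable_const)

lemma vadd_eq (g : Gp) (x : ℂ) : (g +ᵥ x : ℂ) = (g : ℂ) + x := rfl

lemma Dm_exists_unique (x : ℂ) : ∃! g : Gp, g +ᵥ x ∈ Dm := by
  obtain ⟨m, hm, hu⟩ := existsUnique_add_zsmul_mem_Ico Real.two_pi_pos x.re (-Real.pi)
  have e : ∀ k : ℤ, ((k • (2 * Real.pi : ℂ)) + x).re = x.re + k • (2 * Real.pi) := by
    intro k
    simp [add_comm]
  have hIco : ∀ r : ℝ, r ∈ Ico (-Real.pi) (-Real.pi + 2 * Real.pi) ↔ -Real.pi ≤ r ∧ r < Real.pi := by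
    intro r
    rw [mem_Ico]
    constructor
    · rintro ⟨h1, h2⟩; exact ⟨h1, by linarith⟩
    · rintro ⟨h1, h2⟩; exact ⟨h1, by linarith⟩
  refine ⟨⟨m • (2 * Real.pi : ℂ), AddSubgroup.zsmul_mem_zmultiples _ _⟩, ?_, ?_⟩
  · show -Real.pi ≤ ((m • (2 * Real.pi : ℂ)) + x).re ∧ ((m • (2 * Real.pi : ℂ)) + x).re < Real.pi
    rw [e, ← hIco]
    exact hm
  · rintro ⟨g, hg⟩ hgx
    obtain ⟨k, rfl⟩ := AddSubgroup.mem_zmultiples_iff.1 hg
    have h1 : -Real.pi ≤ ((k • (2 * Real.pi : ℂ)) + x).re ∧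
        ((k • (2 * Real.pi : ℂ)) + x).re < Real.pi := hgx
    rw [e, ← hIco] at h1
    have := hu k h1
    subst this
    rfl

lemma Dm_fd : IsAddFundamentalDomain Gp Dm (volume : Measure ℂ) :=
  IsAddFundamentalDomain.mk' measurableSet_Dm.nullMeasurableSet Dm_exists_unique

instance : Countable Gp := by
  unfold Gp
  infer_instance

lemma shift_mem {G : ℂ → ℂ} (hper : ∀ x, G (x + 2 * Real.pi) = G x + 2 * Real.pi) :
    ∀ (g : Gp) (x : ℂ), G (g +ᵥ x) = g +ᵥ G x := by
  let P : AddSubgroup ℂ :=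
    { carrier := {g | ∀ x, G (x + g) = G x + g}
      zero_mem' := by intro x; simp
      add_mem' := by
        intro a b ha hb x
        rw [← add_assoc, hb, ha, add_assoc]
      neg_mem' := by
        intro a ha x
        have := ha (x + -a)
        rw [neg_add_cancel_right] at this
        rw [this, add_neg_cancel_right] }
  have hle : Gp ≤ P := by
    rw [AddSubgroup.zmultiples_le]
    exact hper
  intro g x
  rw [vadd_eq, vadd_eq, add_comm (g : ℂ) x, hle g.2 x, add_comm]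

lemma per_mem {E : Type*} {G : ℂ → E} (hper : ∀ x, G (x + 2 * Real.pi) = G x) :
    ∀ (g : Gp) (x : ℂ), G (g +ᵥ x) = G x := by
  let P : AddSubgroup ℂ :=
    { carrier := {g | ∀ x, G (x + g) = G x}
      zero_mem' := by intro x; simp
      add_mem' := by
        intro a b ha hb x
        rw [← add_assoc, hb, ha]
      neg_mem' := by
        intro a ha x
        have := ha (x + -a)
        rw [neg_add_cancel_right] at this
        exact this.symm }
  have hle : Gp ≤ P := by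
    rw [AddSubgroup.zmultiples_le]
    exact hper
  intro g x
  rw [vadd_eq, add_comm (g : ℂ) x, hle g.2 x]

lemma image_Dm_fd {G : ℂ → ℂ} (hG : Function.Bijective G) (hc : Continuous G)
    (hper : ∀ x, G (x + 2 * Real.pi) = G x + 2 * Real.pi) :
    IsAddFundamentalDomain Gp (G '' Dm) (volume : Measure ℂ) := by
  refine IsAddFundamentalDomain.mk' ?_ ?_
  · exact (measurableSet_Dm.image_of_continuousOn_injOn hc.continuousOn
      hG.injective.injOn).nullMeasurableSet
  · intro y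
    obtain ⟨x, rfl⟩ := hG.surjective y
    obtain ⟨g, hg, huniq⟩ := Dm_exists_unique x
    have key : ∀ g : Gp, g +ᵥ G x = G (g +ᵥ x) := fun g => (shift_mem hper g x).symm
    refine ⟨g, ?_, ?_⟩
    · show g +ᵥ G x ∈ G '' Dm
      rw [key]
      exact ⟨_, hg, rfl⟩
    · intro g' hg'
      apply huniq
      have hg'' : g' +ᵥ G x ∈ G '' Dm := hg'
      rw [key] at hg''
      obtain ⟨z, hz, hzz⟩ := hg''
      have : z = g' +ᵥ x := hG.injective hzz
      rw [← this]; exact hz

lemma measurableSet_strip : MeasurableSet {z : ℂ | 0 ≤ z.im ∧ z.im ≤ Real.pi} :=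
  (measurableSet_le measurable_const Complex.measurable_im).inter
    (measurableSet_le Complex.measurable_im measurable_const)

lemma St_eq : St = Dm ∩ {z : ℂ | 0 ≤ z.im ∧ z.im ≤ Real.pi} := by
  ext z
  simp only [St, Dm, mem_setOf_eq, mem_inter_iff]
  tauto

lemma measurableSet_St : MeasurableSet St := by
  rw [St_eq]
  exact measurableSet_Dm.inter measurableSet_strip

lemma int_St (F : ℂ → ℝ) :
    ∫ z in St, F z = ∫ z in Dm, {z : ℂ | 0 ≤ z.im ∧ z.im ≤ Real.pi}.indicator F z := by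
  rw [setIntegral_indicator measurableSet_strip, St_eq]

theorem mp_St {G : ℂ ≃ₜ ℂ} (hG : MeasurePreserving G volume volume)
    (hper : ∀ x, G (x + 2 * Real.pi) = G x + 2 * Real.pi)
    (hstrip : ∀ z, (0 ≤ (G z).im ∧ (G z).im ≤ Real.pi) ↔ (0 ≤ z.im ∧ z.im ≤ Real.pi))
    {F : ℂ → ℝ} (hF : ∀ z, F (z + 2 * Real.pi) = F z) :
    ∫ z in St, F (G z) = ∫ z in St, F z := by
  rw [int_St (fun z => F (G z)), int_St F]
  have h1 : ({z : ℂ | 0 ≤ z.im ∧ z.im ≤ Real.pi}.indicator fun z => F (G z)) =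
      fun z => {z : ℂ | 0 ≤ z.im ∧ z.im ≤ Real.pi}.indicator F (G z) := by
    funext z
    simp only [indicator, mem_setOf_eq, hstrip]
  rw [h1, ← hG.setIntegral_image_emb G.measurableEmbedding]
  apply (image_Dm_fd G.bijective G.continuous hper).setIntegral_eq Dm_fd
  apply per_mem
  intro x
  simp only [indicator, mem_setOf_eq, add_im, mul_im, re_ofNat, ofReal_im, mul_zero, im_ofNat,
    ofReal_re, zero_mul, add_zero, hF]

end Run7.h148.E3
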